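import Pool.Agent.Helper45M.UR.Main
set_option autoImplicit false
set_option linter.unusedSectionVars false

/-!
# Uniform approximations
-/

open MvPolynomial Pool.Agent.Y129.TA Pool.Agent.Y129.TB

namespace Pool.Agent.Helper45M.UR

open Filter

/-- A bundled tilting. -/
structure Pair (p : ℕ) [Fact p.Prime] where
  C : Type
  F : Type
  iC : Field C
  iF : Field F
  ch : CharP F p
  aC : IsAlgClosed C
  aF : IsAlgClosed F
  T : Tilting p C F

attribute [instance] Pair.iC Pair.iF Pair.ch Pair.aC Pair.aF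

variable {p : ℕ} [hp : Fact p.Prime]

theorem exists_index {N : ℕ} {Q : ℕ → Prop} (h : ∀ᶠ k in (hyperfilter ℕ : Filter ℕ), Q k) :
    ∃ k, N ≤ k + 1 ∧ Q k := by
  have h1 : ∀ᶠ k in (hyperfilter ℕ : Filter ℕ), N ≤ k + 1 := by
    have h2 : ∀ᶠ k in atTop, N ≤ k + 1 := by
      filter_upwards [eventually_ge_atTop N] with k hk
      omega
    exact Nat.hyperfilter_le_atTop h2
  obtain ⟨k, h2, h3⟩ := (h1.and h).exists
  exact ⟨k, h2, h3⟩

theorem uniform_pair {σ ι : Type} [Fintype σ] [DecidableEq σ] [Fintype ι] {D : ι → ℕ}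
    (hD : ∀ l, 0 < D l) (d : ℕ) : ∃ N : ℕ, 0 < N ∧ ∀ (X : Pair p) (P : ι → MvPolynomial σ X.C),
      (∀ l, (P l).IsHomogeneous (D l)) → (∀ l α, X.T.absK (coeff α (P l)) ≤ 1) →
      DimGE {x : σ → X.C | ∀ l, eval x (P l) = 0} d → ∃ P' : ι → MvPolynomial σ X.F,
        (∀ l, (P' l).IsHomogeneous (D l)) ∧
        (∀ l α, X.T.absK (coeff α (P l) - X.T.sharp (coeff α (P' l))) ^ N ≤ X.T.absK p) ∧
        DimGE {t : σ → X.F | ∀ l, eval t (P' l) = 0} d := by
  by_contra hno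
  push Not at hno
  choose X P hP hP1 hd hbad using fun k : ℕ => hno (k + 1) (Nat.succ_pos k)
  obtain ⟨N, hN, h⟩ := seq_forms (T := fun k => (X k).T) hD P hP hP1 hd (hyperfilter ℕ)
  obtain ⟨k, hk, P', h1, h2, h3⟩ := exists_index (N := N) h
  exact hbad k P' h1 (fun l α => pow_le_of_le ((X k).T.absK.nonneg _) (X k).T.p_lt hk (h2 l α)) h3

theorem uniform_solutions_pair {ι κ : Type} [Finite ι] [Finite κ] (w : κ → MvPolynomial ι ℤ) :
    ∃ N : ℕ, 0 < N ∧ ∀ (X : Pair p) (c : ι → X.C), (∀ i, X.T.absK (c i) ≤ 1) →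
      (∀ j, aeval c (w j) = 0) → ∃ c' : ι → X.F,
        (∀ i, X.T.absK (c i - X.T.sharp (c' i)) ^ N ≤ X.T.absK p) ∧ ∀ j, aeval c' (w j) = 0 := by
  by_contra hno
  push Not at hno
  choose X c hc hw hbad using fun k : ℕ => hno (k + 1) (Nat.succ_pos k)
  obtain ⟨N, hN, h⟩ := seq_solutions (T := fun k => (X k).T) w c hc hw (hyperfilter ℕ)
  obtain ⟨k, hk, c', h1, h2⟩ := exists_index (N := N) h
  obtain ⟨j, hj⟩ := hbad k c' fun i =>
    pow_le_of_le ((X k).T.absK.nonneg _) (X k).T.p_lt hk (h1 i)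
  exact hj (h2 j)

/-- The uniform version for all systems of bounded complexity. -/
theorem uniform_bounded (B d : ℕ) : ∃ N : ℕ, 0 < N ∧ ∀ (X : Pair p) (n r : ℕ) (D : Fin r → ℕ)
    (P : Fin r → MvPolynomial (Fin (n + 1)) X.C), n ≤ B → r ≤ B → (∀ l, 0 < D l) →
      (∀ l, D l ≤ B) → (∀ l, (P l).IsHomogeneous (D l)) →
      (∀ l α, X.T.absK (coeff α (P l)) ≤ 1) →
      DimGE {x : Fin (n + 1) → X.C | ∀ l, eval x (P l) = 0} d →
      ∃ P' : Fin r → MvPolynomial (Fin (n + 1)) X.F, (∀ l, (P' l).IsHomogeneous (D l)) ∧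
        (∀ l α, X.T.absK (coeff α (P l) - X.T.sharp (coeff α (P' l))) ^ N ≤ X.T.absK p) ∧
        DimGE {t : Fin (n + 1) → X.F | ∀ l, eval t (P' l) = 0} d := by
  classical
  have h1 : ∀ (n r : ℕ) (D : Fin r → ℕ), ∃ N : ℕ, 0 < N ∧ ((∀ l, 0 < D l) → ∀ (X : Pair p)
      (P : Fin r → MvPolynomial (Fin (n + 1)) X.C), (∀ l, (P l).IsHomogeneous (D l)) →
      (∀ l α, X.T.absK (coeff α (P l)) ≤ 1) →
      DimGE {x : Fin (n + 1) → X.C | ∀ l, eval x (P l) = 0} d →
      ∃ P' : Fin r → MvPolynomial (Fin (n + 1)) X.F, (∀ l, (P' l).IsHomogeneous (D l)) ∧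
        (∀ l α, X.T.absK (coeff α (P l) - X.T.sharp (coeff α (P' l))) ^ N ≤ X.T.absK p) ∧
        DimGE {t : Fin (n + 1) → X.F | ∀ l, eval t (P' l) = 0} d) := by
    intro n r D
    by_cases hD : ∀ l, 0 < D l
    · obtain ⟨N, hN, h⟩ := uniform_pair (p := p) (σ := Fin (n + 1)) (ι := Fin r) hD d
      exact ⟨N, hN, fun _ => h⟩
    · exact ⟨1, one_pos, fun h => absurd h hD⟩
  choose N hN h using h1
  refine ⟨(Finset.range (B + 1)).sup (fun n => (Finset.range (B + 1)).sup fun r =>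
    (Finset.univ : Finset (Fin r → Fin (B + 1))).sup fun D => N n r fun l => D l) + 1, by omega,
    fun X n r D P hn hr hD hDB hP hP1 hd => ?_⟩
  obtain ⟨P', h2, h3, h4⟩ := h n r D hD X P hP hP1 hd
  refine ⟨P', h2, fun l α => ?_, h4⟩
  refine pow_le_of_le (X.T.absK.nonneg _) X.T.p_lt ?_ (h3 l α)
  refine le_trans ?_ (Nat.le_succ _)
  have h5 : N n r D ≤ (Finset.univ : Finset (Fin r → Fin (B + 1))).sup
      fun D => N n r fun l => D l := by
    have h6 := Finset.le_sup (f := fun D : Fin r → Fin (B + 1) => N n r fun l => D l)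
      (Finset.mem_univ fun l => (⟨D l, Nat.lt_succ_of_le (hDB l)⟩ : Fin (B + 1)))
    exact h6
  refine h5.trans ?_
  have h6 := Finset.le_sup (f := fun r => (Finset.univ : Finset (Fin r → Fin (B + 1))).sup
    fun D => N n r fun l => D l) (Finset.mem_range.2 (Nat.lt_succ_of_le hr))
  refine h6.trans ?_
  exact Finset.le_sup (f := fun n => (Finset.range (B + 1)).sup fun r =>
    (Finset.univ : Finset (Fin r → Fin (B + 1))).sup fun D => N n r fun l => D l)
    (Finset.mem_range.2 (Nat.lt_succ_of_le hn))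

/-- A closed cone of dimension at least `d` contains a closed cone of dimension `d`. -/
theorem exists_sub {F : Type} [Field F] [IsAlgClosed F] {n r : ℕ}
    {P : Fin r → MvPolynomial (Fin (n + 1)) F} (hP : ∀ l, ∃ D, 0 < D ∧ (P l).IsHomogeneous D)
    {d : ℕ} (h : DimGE {t : Fin (n + 1) → F | ∀ l, eval t (P l) = 0} d) :
    ∃ Y : Set (Fin (n + 1) → F), IsClosedCone Y ∧ DimGE Y d ∧ DimLE Y d ∧
      Y ⊆ {t : Fin (n + 1) → F | ∀ l, eval t (P l) = 0} := by
  classical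
  set Y₀ := {t : Fin (n + 1) → F | ∀ l, eval t (P l) = 0} with hY₀
  -- the dimension is bounded
  have hbd : ∀ e, DimGE Y₀ e → e ≤ n := by
    intro e he
    by_contra hlt
    push Not at hlt
    obtain ⟨y, -, hy0, hy⟩ := Pool.Agent.R388.TP.dimGE_fintype he (κ := Fin (n + 1))
      (by rw [Fintype.card_fin]; omega) (fun i => X i) fun i => ⟨1, one_pos, isHomogeneous_X _ i⟩
    exact hy0 (funext fun i => by
      have h1 := hy i
      rwa [eval_X] at h1)
  obtain ⟨e, he, hmax⟩ : ∃ e, DimGE Y₀ e ∧ ¬ DimGE Y₀ (e + 1) ∧ d ≤ e := by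
    have hex : ∃ m, ¬ DimGE Y₀ (d + m) := ⟨n + 1, fun h1 => by have := hbd _ h1; omega⟩
    have h1 := Nat.find_spec hex
    have h2 : Nat.find hex ≠ 0 := fun h0 => by
      rw [h0, add_zero] at h1
      exact h1 h
    obtain ⟨m, hm⟩ := Nat.exists_eq_succ_of_ne_zero h2
    refine ⟨d + m, ?_, ?_, by omega⟩
    · by_contra hno
      exact Nat.find_min hex (by rw [hm]; exact Nat.lt_succ_self m) hno
    · rw [hm] at h1
      exact h1
  obtain ⟨q, hq, hq0⟩ : ∃ q : Fin (e + 1) → MvPolynomial (Fin (n + 1)) F,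
      (∀ j, (q j).IsHomogeneous 1) ∧ ∀ y ∈ Y₀, (∀ j, eval y (q j) = 0) → y = 0 := by
    by_contra hno
    push Not at hno
    refine hmax.1 (dimGE_of_linear hP fun q hq => ?_)
    obtain ⟨y, hy, hqy, hy0⟩ := hno q hq
    exact ⟨y, hy, hy0, hqy⟩
  obtain ⟨m, hm⟩ := Nat.exists_eq_add_of_le hmax.2
  let q₁ : Fin m → MvPolynomial (Fin (n + 1)) F := fun i => q ⟨i, by omega⟩
  let q₂ : Fin (d + 1) → MvPolynomial (Fin (n + 1)) F := fun i => q ⟨m + i, by omega⟩
  have hall : ∀ y : Fin (n + 1) → F, (∀ i, eval y (q₁ i) = 0) → (∀ i, eval y (q₂ i) = 0) →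
      ∀ j, eval y (q j) = 0 := by
    intro y h1 h2 j
    by_cases hj : (j : ℕ) < m
    · exact h1 ⟨j, hj⟩
    · have h3 := h2 ⟨j - m, by omega⟩
      have h4 : q₂ ⟨j - m, by omega⟩ = q j := by
        change q ⟨m + (j - m), _⟩ = q j
        congr 1
        apply Fin.ext
        change m + (j - m) = (j : ℕ)
        omega
      rwa [h4] at h3
  refine ⟨{y | y ∈ Y₀ ∧ ∀ i, eval y (q₁ i) = 0}, ⟨⟨Ideal.span (Set.range P ∪ Set.range q₁), ?_⟩,
    ?_⟩, ?_, ⟨q₂, fun j => ⟨1, one_pos, hq _⟩, fun y hy hqy => ?_⟩, fun y hy => hy.1⟩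
  · ext y
    rw [mem_zeroLocus_iff]
    constructor
    · rintro ⟨h1, h2⟩ f hf
      have h3 : Ideal.span (Set.range P ∪ Set.range q₁) ≤ RingHom.ker (eval y) := by
        rw [Ideal.span_le]
        rintro _ (⟨l, rfl⟩ | ⟨i, rfl⟩)
        · exact h1 l
        · exact h2 i
      rw [aeval_eq_eval]
      exact h3 hf
    · intro h1
      refine ⟨fun l => ?_, fun i => ?_⟩
      · have h2 := h1 (P l) (Ideal.subset_span (Or.inl ⟨l, rfl⟩))
        rwa [aeval_eq_eval] at h2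
      · have h2 := h1 (q₁ i) (Ideal.subset_span (Or.inr ⟨i, rfl⟩))
        rwa [aeval_eq_eval] at h2
  · rintro a y ⟨h1, h2⟩
    refine ⟨fun l => ?_, fun i => ?_⟩
    · obtain ⟨D, -, hD⟩ := hP l
      have h3 := eval_smul_of_homogeneous hD a y
      rw [h1 l, mul_zero] at h3
      exact h3
    · have h3 := eval_smul_of_homogeneous (hq ⟨i, by omega⟩) a y
      have h4 : eval y (q ⟨i, by omega⟩) = 0 := h2 i
      rw [h4, mul_zero] at h3
      exact h3
  · intro g hg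
    obtain ⟨y, hy, hy0, h1⟩ := Pool.Agent.R388.TP.dimGE_fintype he (κ := Fin m ⊕ Fin d)
      (by rw [Fintype.card_sum, Fintype.card_fin, Fintype.card_fin]; omega) (Sum.elim q₁ g) (by
        rintro (i | j)
        · exact ⟨1, one_pos, hq _⟩
        · exact hg j)
    exact ⟨y, ⟨hy, fun i => h1 (Sum.inl i)⟩, hy0, fun j => h1 (Sum.inr j)⟩
  · exact hq0 y hy.1 (hall y hy.2 hqy)

end Pool.Agent.Helper45M.UR
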