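import Pool.Agent.R388.TP.Kummer
import Pool.Agent.Helper45M.DB.TowerMain
set_option autoImplicit false

/-!
# The dimension can be computed with linear forms
-/

open MvPolynomial Pool.Agent.Y129.TA Pool.Agent.Y129.TB Pool.Agent.R388.TP

namespace Pool.Agent.Helper45M.UR

variable {F : Type} [Field F] [IsAlgClosed F] {α : Type} [Finite α]

theorem exists_linforms (d : ℕ) : ∀ J : Ideal (MvPolynomial α F),
    (∀ a : F, ∀ y ∈ zeroLocus F J, a • y ∈ zeroLocus F J) → ¬ HasChain J (d + 1) →
    ∃ q : Fin d → MvPolynomial α F, (∀ j, (q j).IsHomogeneous 1) ∧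
      ∀ y ∈ zeroLocus F J, (∀ j, eval y (q j) = 0) → y = 0 := by
  classical
  have : Infinite F := IsAlgClosed.instInfinite
  induction d with
  | zero =>
    intro J hJ h
    refine ⟨fun j => j.elim0, fun j => j.elim0, fun y hy _ => ?_⟩
    by_contra hy0
    exact h (hasChain_one hJ hy hy0)
  | succ d ih =>
    intro J hJ h
    let g : Ideal (MvPolynomial α F) → (α → F) := fun P =>
      if hP : ∃ w ∈ zeroLocus F P, w ≠ 0 then hP.choose else 0
    have hg : ∀ P : Ideal (MvPolynomial α F), (∃ w ∈ zeroLocus F P, w ≠ 0) →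
        g P ∈ zeroLocus F P ∧ g P ≠ 0 := by
      intro P hP
      have h1 : g P = hP.choose := dif_pos hP
      rw [h1]
      exact hP.choose_spec
    have hfin : (g '' J.minimalPrimes \ {0}).Finite :=
      ((Ideal.finite_minimalPrimes_of_isNoetherianRing _ J).image g).subset Set.sdiff_subset
    obtain ⟨ℓ, hℓ1, hℓ2⟩ := exists_linear hfin (by simp)
    obtain ⟨q, hq, hq0⟩ := ih (J ⊔ Ideal.span {ℓ}) (fun a y hy => by
      rw [mem_sup_span] at hy ⊢
      refine ⟨hJ a y hy.1, ?_⟩
      have : Fintype α := Fintype.ofFinite α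
      have h1 := eval_smul_of_homogeneous hℓ1 a y
      rw [hy.2, mul_zero] at h1
      exact h1) (by
      rintro ⟨s, hs, hs1, hs2⟩
      obtain ⟨P, hP, hPs⟩ := Ideal.exists_minimalPrimes_le (le_sup_left.trans hs1 : J ≤ s.head.asIdeal)
      have hPp : P.IsPrime := hP.1.1
      refine h ⟨s.cons ⟨P, hPp⟩ ?_, ?_, ?_, ?_⟩
      · change (⟨P, hPp⟩ : PrimeSpectrum (MvPolynomial α F)) < s.head
        rw [← PrimeSpectrum.asIdeal_lt_asIdeal]
        refine lt_of_le_of_ne hPs fun he => ?_
        have he' : P = s.head.asIdeal := he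
        by_cases hw : ∃ w ∈ zeroLocus F P, w ≠ 0
        · obtain ⟨h1, h2⟩ := hg P hw
          refine hℓ2 (g P) ⟨⟨P, hP, rfl⟩, by simpa using h2⟩ ?_
          have h3 : ℓ ∈ P := by
            rw [he']
            exact hs1 (Ideal.mem_sup_right (Ideal.subset_span (Set.mem_singleton ℓ)))
          have h4 := (mem_zeroLocus_iff.1 h1) ℓ h3
          rwa [aeval_eq_eval] at h4
        · push Not at hw
          have h1 := le_of_zeroLocus hw
          rw [he', ← hs2] at h1
          have h2 : s.head < s.last := by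
            have h3 : (0 : Fin (s.length + 1)) < Fin.last s.length := by
              rw [Fin.lt_def]
              simp only [Fin.val_zero, Fin.val_last]
              omega
            exact s.strictMono h3
          rw [← PrimeSpectrum.asIdeal_lt_asIdeal] at h2
          exact absurd h1 (not_le_of_gt h2)
      · rw [RelSeries.cons_length, hs]
      · rw [RelSeries.head_cons]
        exact hP.1.2
      · rw [RelSeries.last_cons, hs2])
    refine ⟨Fin.cons ℓ q, ?_, fun y hy hqy => ?_⟩
    · intro j
      refine Fin.cases ?_ (fun j => ?_) j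
      · exact hℓ1
      · exact hq j
    · refine hq0 y (mem_sup_span.2 ⟨hy, ?_⟩) fun j => ?_
      · simpa using hqy 0
      · simpa using hqy j.succ

theorem exists_algInd_of_chain {J : Ideal (MvPolynomial α F)} {d : ℕ} (hch : HasChain J (d + 1)) :
    ∃ P : Ideal (MvPolynomial α F), P.IsPrime ∧ J ≤ P ∧
      ∃ z : Fin (d + 1) → MvPolynomial α F ⧸ P, AlgebraicIndependent F z := by
  obtain ⟨s, hs, hJ, -⟩ := hch
  have hP : s.head.asIdeal.IsPrime := s.head.2
  refine ⟨s.head.asIdeal, hP, hJ, ?_⟩
  obtain ⟨r, g, hg, hgi⟩ := exists_integral_inj_algHom_of_fg F (MvPolynomial α F ⧸ s.head.asIdeal)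
  have hr : d + 1 ≤ r := by
    let : Algebra (MvPolynomial (Fin r) F) (MvPolynomial α F ⧸ s.head.asIdeal) :=
      g.toRingHom.toAlgebra
    have hint : Algebra.IsIntegral (MvPolynomial (Fin r) F)
      (MvPolynomial α F ⧸ s.head.asIdeal) := ⟨hgi⟩
    have hle : ∀ i, s.head.asIdeal ≤ (s i).asIdeal := fun i =>
      PrimeSpectrum.asIdeal_le_asIdeal _ _ |>.2 (s.head_le i)
    have hpr : ∀ i, ((s i).asIdeal.map (Ideal.Quotient.mk s.head.asIdeal)).IsPrime := fun i => by
      have := (s i).2
      refine Ideal.map_isPrime_of_surjective Ideal.Quotient.mk_surjective ?_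
      rw [Ideal.mk_ker]
      exact hle i
    have hlt : ∀ i j, i < j → (s i).asIdeal.map (Ideal.Quotient.mk s.head.asIdeal) <
        (s j).asIdeal.map (Ideal.Quotient.mk s.head.asIdeal) := by
      intro i j hij
      have h1 : (s i).asIdeal < (s j).asIdeal :=
        (PrimeSpectrum.asIdeal_lt_asIdeal _ _).2 (s.strictMono hij)
      have h2 : ∀ i, ((s i).asIdeal.map (Ideal.Quotient.mk s.head.asIdeal)).comap
          (Ideal.Quotient.mk s.head.asIdeal) = (s i).asIdeal := fun i =>
        Ideal.comap_map_mk (hle i)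
      refine lt_of_le_of_ne (Ideal.map_mono h1.le) fun h3 => h1.ne ?_
      rw [← h2 i, h3, h2 j]
    let t : LTSeries (PrimeSpectrum (MvPolynomial (Fin r) F)) :=
      LTSeries.mk s.length (fun i => ⟨((s i).asIdeal.map (Ideal.Quotient.mk s.head.asIdeal)).comap
        (algebraMap (MvPolynomial (Fin r) F) (MvPolynomial α F ⧸ s.head.asIdeal)),
          (hpr i).comap _⟩) (by
        intro i j hij
        rw [← PrimeSpectrum.asIdeal_lt_asIdeal]
        have := hpr i
        exact Ideal.IsIntegral.comap_lt_comap (hlt i j hij))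
    have h4 : (t.length : WithBot ℕ∞) ≤ ringKrullDim (MvPolynomial (Fin r) F) :=
      Order.LTSeries.length_le_krullDim t
    rw [MvPolynomial.ringKrullDim_of_isNoetherianRing, ringKrullDim_eq_zero_of_field, zero_add,
      Nat.card_fin] at h4
    have h5 : t.length = d + 1 := hs
    rw [h5] at h4
    exact_mod_cast h4
  refine ⟨fun i => g (X (Fin.castLE hr i)), ?_⟩
  have h6 : AlgebraicIndependent F fun i : Fin r => g (X i) := by
    have h7 : (aeval fun i : Fin r => g (X i)) = g := by
      ext i
      rw [aeval_X]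
    change Function.Injective (aeval fun i : Fin r => g (X i))
    rw [h7]
    exact hg
  exact h6.comp _ (Fin.castLE_injective hr)

/-- The dimension of the set of the common zeros of forms is at least `d` if any `d` linear forms have
a common zero on it. -/
theorem dimGE_of_linear {ι : Type} {P : ι → MvPolynomial α F}
    (hP : ∀ l, ∃ D, 0 < D ∧ (P l).IsHomogeneous D) {d : ℕ}
    (h : ∀ q : Fin d → MvPolynomial α F, (∀ j, (q j).IsHomogeneous 1) →
      ∃ y : α → F, (∀ l, eval y (P l) = 0) ∧ y ≠ 0 ∧ ∀ j, eval y (q j) = 0) :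
    DimGE {y : α → F | ∀ l, eval y (P l) = 0} d := by
  have hF : Fintype α := Fintype.ofFinite α
  have hJ : zeroLocus F (Ideal.span (Set.range P)) = {y : α → F | ∀ l, eval y (P l) = 0} := by
    ext y
    rw [mem_zeroLocus_iff]
    constructor
    · intro h1 l
      have h2 := h1 (P l) (Ideal.subset_span ⟨l, rfl⟩)
      rwa [aeval_eq_eval] at h2
    · intro h1 f hf
      have h2 : Ideal.span (Set.range P) ≤ RingHom.ker (eval y) := by
        rw [Ideal.span_le]
        rintro _ ⟨l, rfl⟩
        exact h1 l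
      rw [aeval_eq_eval]
      exact h2 hf
  have hcone : ∀ a : F, ∀ y ∈ zeroLocus F (Ideal.span (Set.range P)),
      a • y ∈ zeroLocus F (Ideal.span (Set.range P)) := by
    intro a y hy
    rw [hJ] at hy ⊢
    intro l
    obtain ⟨D, -, hD⟩ := hP l
    have h1 := eval_smul_of_homogeneous hD a y
    rw [hy l, mul_zero] at h1
    exact h1
  have hch : HasChain (Ideal.span (Set.range P)) (d + 1) := by
    by_contra hno
    obtain ⟨q, hq, h0⟩ := exists_linforms d _ hcone hno
    obtain ⟨y, hy, hy0, hqy⟩ := h q hq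
    exact hy0 (h0 y (by rw [hJ]; exact hy) hqy)
  obtain ⟨Q, hQ, hle, z, hz⟩ := exists_algInd_of_chain hch
  rw [← hJ]
  refine dimGE_of_algInd' hle (fun f hf n => ?_) z hz
  exact DB.hhom_of (fun l => ⟨(hP l).choose, (hP l).choose_spec.2⟩) f hf n

end Pool.Agent.Helper45M.UR
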