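import Pool.Agent.Helper45M.UR.Tilt
set_option autoImplicit false
set_option linter.unusedSectionVars false

/-!
# Approximations of sequences
-/

open MvPolynomial Pool.Agent.Y129.TA Pool.Agent.Y129.TB

namespace Pool.Agent.Helper45M.UR

open Filter

section up

variable {U : Ultrafilter ℕ} {A : ℕ → Type} [∀ k, Field (A k)] {σ : Type}

/-- Evaluation of a polynomial over the ultraproduct. -/
theorem eval_cls (f : MvPolynomial σ (∀ k, A k)) (x : σ → ∀ k, A k) :
    eval (fun i => cls U A (x i)) (MvPolynomial.map (cls U A) f) = cls U A (fun k =>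
      eval (fun i => x i k) (MvPolynomial.map (Pi.evalRingHom A k) f)) := by
  have h1 : cls U A (eval x f) = eval₂ (cls U A) (fun i => cls U A (x i)) f := by
    have h2 := MvPolynomial.hom_eval₂ f (RingHom.id (∀ k, A k)) (cls U A) x
    exact h2
  rw [eval_map, ← h1]
  congr 1
  funext k
  have h3 : Pi.evalRingHom A k (eval x f) = eval₂ (Pi.evalRingHom A k) (fun i => x i k) f := by
    have h2 := MvPolynomial.hom_eval₂ f (RingHom.id (∀ k, A k)) (Pi.evalRingHom A k) x
    exact h2
  rw [eval_map]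
  exact h3

variable [Fintype σ] [DecidableEq σ]

/-- The dimension over the ultraproduct is at most the dimension at almost all indices. -/
theorem dimGE_of_up [∀ k, IsAlgClosed (A k)] {ι : Type} [Finite ι] {D : ι → ℕ} (hD : ∀ l, 0 < D l)
    (a : ∀ _ : ι, (σ →₀ ℕ) → ∀ k, A k) {d : ℕ}
    (h : DimGE {t : σ → UP U A | ∀ l, eval t (mkPoly (D l) fun α => cls U A (a l α)) = 0} d) :
    ∀ᶠ k in (U : Filter ℕ), DimGE {t : σ → A k | ∀ l, eval t (mkPoly (D l) fun α => a l α k) = 0}
      d := by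
  classical
  by_contra hno
  have hno' : ∀ᶠ k in (U : Filter ℕ), ¬ DimGE {t : σ → A k |
      ∀ l, eval t (mkPoly (D l) fun α => a l α k) = 0} d := by
    simpa only [Filter.not_eventually, Ultrafilter.frequently_iff_eventually] using hno
  have hq : ∀ k, ∃ q : Fin d → MvPolynomial σ (A k), (∀ j, (q j).IsHomogeneous 1) ∧
      (¬ DimGE {t : σ → A k | ∀ l, eval t (mkPoly (D l) fun α => a l α k) = 0} d →
        ∀ y : σ → A k, (∀ l, eval y (mkPoly (D l) fun α => a l α k) = 0) →
          (∀ j, eval y (q j) = 0) → y = 0) := by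
    intro k
    by_cases hk : DimGE {t : σ → A k | ∀ l, eval t (mkPoly (D l) fun α => a l α k) = 0} d
    · exact ⟨fun _ => 0, fun _ => isHomogeneous_zero _ _ _, fun h => absurd hk h⟩
    · by_contra hall
      push Not at hall
      refine hk (dimGE_of_linear (fun l => ⟨D l, hD l, mkPoly_homogeneous _ _⟩) fun q hq => ?_)
      obtain ⟨-, y, hy, hqy, hy0⟩ := hall q hq
      exact ⟨y, hy, hy0, hqy⟩
  choose q hq1 hq2 using hq
  let Q : Fin d → MvPolynomial σ (UP U A) := fun j =>
    mkPoly 1 fun α => cls U A (fun k => coeff α (q k j))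
  obtain ⟨y, hy, hy0, hQy⟩ := h Q fun j => ⟨1, one_pos, mkPoly_homogeneous _ _⟩
  choose Y hY using fun i => Ideal.Quotient.mk_surjective (I := nul U A) (y i)
  have hYy : (fun i => cls U A (Y i)) = y := funext hY
  obtain ⟨i, hi⟩ := Function.ne_iff.1 hy0
  have e1 : ∀ᶠ k in (U : Filter ℕ), Y i k ≠ 0 := by
    have h1 : ¬ ∀ᶠ k in (U : Filter ℕ), Y i k = 0 := by
      intro h0
      apply hi
      rw [← hY i]
      exact cls_eq_zero.2 h0
    simpa only [Filter.not_eventually, Ultrafilter.frequently_iff_eventually] using h1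
  have e2 : ∀ᶠ k in (U : Filter ℕ), ∀ l, eval (fun i => Y i k) (mkPoly (D l) fun α => a l α k) = 0 := by
    rw [Filter.eventually_all]
    intro l
    have h1 : eval y (mkPoly (D l) fun α => cls U A (a l α)) = 0 := hy l
    rw [← hYy, ← map_mkPoly, eval_cls, cls_eq_zero] at h1
    filter_upwards [h1] with k hk
    rw [map_mkPoly] at hk
    exact hk
  have e3 : ∀ᶠ k in (U : Filter ℕ), ∀ j, eval (fun i => Y i k) (q k j) = 0 := by
    rw [Filter.eventually_all]
    intro j
    have h1 : eval y (mkPoly 1 fun α => cls U A (fun k => coeff α (q k j))) = 0 := hQy j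
    rw [← hYy, ← map_mkPoly, eval_cls, cls_eq_zero] at h1
    filter_upwards [h1] with k hk
    rw [map_mkPoly] at hk
    rw [eq_mkPoly (hq1 k j)]
    exact hk
  obtain ⟨k, h1, h2, h3, h4⟩ := (e1.and (e2.and (e3.and hno'))).exists
  have h5 := hq2 k h4 (fun i => Y i k) h2 h3
  exact h1 (congrFun h5 i)

end up

variable {p : ℕ} [hp : Fact p.Prime] {C F : ℕ → Type} [∀ k, Field (C k)] [∀ k, Field (F k)]
  [∀ k, CharP (F k) p] [∀ k, IsAlgClosed (C k)] [∀ k, IsAlgClosed (F k)]
  {U : Ultrafilter ℕ} {T : ∀ k, Tilting p (C k) (F k)}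

theorem pow_le_of_le {x η : ℝ} (hx : 0 ≤ x) (hη : η < 1) {n m : ℕ} (hnm : n ≤ m)
    (h : x ^ n ≤ η) : x ^ m ≤ η := by
  have hx1 : x ≤ 1 := by
    by_contra hlt
    push Not at hlt
    have h3 : 1 ≤ x ^ n := one_le_pow₀ hlt.le
    linarith
  exact (pow_le_pow_of_le_one hx hx1 hnm).trans h

/-- The lifts are close. -/
theorem close_of_psi {ι : Type} (s : Finset ι) (z : ι → Opr U (seqC T)) (a : ι → Opr U (seqF T))
    (h : ∀ i, psiT U T (a i) = rs U (seqC T) (z i)) : ∃ N : ℕ, 0 < N ∧
      ∀ᶠ k in (U : Filter ℕ), ∀ i ∈ s,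
        (T k).absK (vC (z i) k - (T k).sharp (vF (a i) k)) ^ N ≤ (T k).absK p := by
  classical
  have h1 : ∀ i, ∃ n : ℕ, 0 < n ∧ ∀ᶠ k in (U : Filter ℕ),
      (T k).absK (vC (z i) k - (T k).sharp (vF (a i) k)) ^ n ≤ (T k).absK p := by
    intro i
    have h2 : rs U (seqC T) (z i - ⟨fun k => (T k).sharp ((a i).1 k), sharp_mem (a i)⟩) = 0 := by
      rw [map_sub, sub_eq_zero]
      exact (h i).symm
    obtain ⟨n, hn, h3⟩ := rs_eq_zero.1 h2
    exact ⟨n, hn, h3⟩
  choose n hn h1 using h1
  refine ⟨s.sup n + 1, by omega, ?_⟩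
  rw [Filter.eventually_all_finset]
  intro i hi
  filter_upwards [h1 i] with k hk
  exact pow_le_of_le ((T k).absK.nonneg _) (T k).p_lt
    ((Finset.le_sup hi).trans (Nat.le_succ _)) hk

/-- Approximation of a sequence of systems of forms. -/
theorem seq_forms {σ ι : Type} [Fintype σ] [DecidableEq σ] [Fintype ι] {D : ι → ℕ}
    (hD : ∀ l, 0 < D l) (P : ∀ k, ι → MvPolynomial σ (C k))
    (hP : ∀ k l, (P k l).IsHomogeneous (D l))
    (hP1 : ∀ k l α, (T k).absK (coeff α (P k l)) ≤ 1) {d : ℕ}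
    (h : ∀ k, DimGE {x : σ → C k | ∀ l, eval x (P k l) = 0} d) (U : Ultrafilter ℕ) :
    ∃ N : ℕ, 0 < N ∧ ∀ᶠ k in (U : Filter ℕ), ∃ P' : ι → MvPolynomial σ (F k),
      (∀ l, (P' l).IsHomogeneous (D l)) ∧
      (∀ l α, (T k).absK (coeff α (P k l) - (T k).sharp (coeff α (P' l))) ^ N ≤ (T k).absK p) ∧
      DimGE {t : σ → F k | ∀ l, eval t (P' l) = 0} d := by
  classical
  have hCc : ∀ k, IsAlgClosed ((seqC T).A k) := fun k => inferInstanceAs (IsAlgClosed (C k))
  let z : ι → (σ →₀ ℕ) → Opr U (seqC T) := fun l α =>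
    ⟨fun k => coeff α (P k l), mem_Opr_of_le_one (Eventually.of_forall fun k => hP1 k l α)⟩
  let Z : ι → MvPolynomial σ (Opr U (seqC T)) := fun l => mkPoly (D l) (z l)
  have hZ : ∀ k l, MvPolynomial.map (at' U (seqC T) k) (Z l) = P k l := by
    intro k l
    rw [map_mkPoly]
    exact (eq_mkPoly (hP k l)).symm
  have h1 : DimGE {x : σ → kap U (seqC T) | ∀ l,
      eval x (MvPolynomial.map (rs U (seqC T)) (Z l)) = 0} d := by
    refine dimGE_kap (fun l => mkPoly_homogeneous _ _) (Eventually.of_forall fun k => ?_)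
    simp only [hZ]
    exact h k
  obtain ⟨τ, hτ⟩ := exists_tau U T
  choose a ha1 ha2 using fun l α => hτ (rs U (seqC T) (z l α))
  let _ : Algebra (kap U (seqC T)) (UP U F) := τ.toAlgebra
  have hcl : IsAlgClosed (UP U F) := up_closed
  have h2 : DimGE {x : σ → kap U (seqC T) | ∀ l,
      aeval x (MvPolynomial.map (rs U (seqC T)) (Z l)) = 0} d := by
    simp only [aeval_eq_eval]
    exact h1
  have h3 := DB.dimGE_transfer (k₀ := kap U (seqC T)) (F := UP U F) (L := kap U (seqC T))
    (fun l => MvPolynomial.map (rs U (seqC T)) (Z l)) h2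
  have h4 : DimGE {t : σ → UP U F | ∀ l, eval t (mkPoly (D l) fun α =>
      cls U F (vF (a l α))) = 0} d := by
    have h5 : ∀ (t : σ → UP U F) l, aeval t (MvPolynomial.map (rs U (seqC T)) (Z l)) =
        eval t (mkPoly (D l) fun α => cls U F (vF (a l α))) := by
      intro t l
      have h6 : aeval t (MvPolynomial.map (rs U (seqC T)) (Z l)) =
          eval t (MvPolynomial.map τ (MvPolynomial.map (rs U (seqC T)) (Z l))) := by
        rw [aeval_def, eval_map]
        rfl
      rw [h6, map_mkPoly, map_mkPoly]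
      congr 2
      funext α
      exact (ha1 l α).symm
    simp only [h5] at h3
    exact h3
  have h5 := dimGE_of_up hD (fun l α => vF (a l α)) h4
  obtain ⟨N, hN, h6⟩ := close_of_psi (U := U) (T := T)
    ((Finset.univ : Finset ι).sigma fun l => (Finset.univ : Finset σ).finsuppAntidiag (D l))
    (fun i => z i.1 i.2) (fun i => a i.1 i.2) fun i => ha2 i.1 i.2
  refine ⟨N, hN, ?_⟩
  filter_upwards [h5, h6] with k hk1 hk2
  refine ⟨fun l => mkPoly (D l) fun α => vF (a l α) k, fun l => mkPoly_homogeneous _ _,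
    fun l α => ?_, hk1⟩
  have h7 : coeff α (mkPoly (D l) fun α => vF (a l α) k : MvPolynomial σ (F k)) =
      if α.degree = D l then vF (a l α) k else 0 := coeff_mkPoly _ _ _
  rw [h7]
  split_ifs with hα
  · exact hk2 ⟨l, α⟩ (Finset.mem_sigma.2 ⟨Finset.mem_univ _, mem_antidiag.2 hα⟩)
  · rw [(hP k l).coeff_eq_zero hα, (T k).toTiltPair.sharp_zero, sub_zero, map_zero,
      zero_pow hN.ne']
    exact (T k).absK.nonneg _

/-- Approximation of a sequence of solutions of a system of equations with integral coefficients. -/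
theorem seq_solutions {ι κ : Type} [Finite ι] [Finite κ] (w : κ → MvPolynomial ι ℤ)
    (c : ∀ k, ι → C k) (hc : ∀ k i, (T k).absK (c k i) ≤ 1)
    (hw : ∀ k j, aeval (c k) (w j) = 0) (U : Ultrafilter ℕ) :
    ∃ N : ℕ, 0 < N ∧ ∀ᶠ k in (U : Filter ℕ), ∃ c' : ι → F k,
      (∀ i, (T k).absK (c k i - (T k).sharp (c' i)) ^ N ≤ (T k).absK p) ∧
      ∀ j, aeval c' (w j) = 0 := by
  classical
  have : Fintype ι := Fintype.ofFinite ι
  let z : ι → Opr U (seqC T) := fun i =>
    ⟨fun k => c k i, mem_Opr_of_le_one (Eventually.of_forall fun k => hc k i)⟩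
  obtain ⟨τ, hτ⟩ := exists_tau U T
  choose a ha1 ha2 using fun i => hτ (rs U (seqC T) (z i))
  obtain ⟨N, hN, h6⟩ := close_of_psi (U := U) (T := T) Finset.univ z a ha2
  have key : ∀ j, ∀ᶠ k in (U : Filter ℕ), aeval (fun i => vF (a i) k) (w j) = 0 := by
    intro j
    have h1 : aeval z (w j) = 0 := by
      apply Subtype.ext
      funext k
      have h2 : at' U (seqC T) k (aeval z (w j)) = aeval (fun i => at' U (seqC T) k (z i)) (w j) := by
        rw [aeval_def, aeval_def, MvPolynomial.hom_eval₂]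
        congr 1
      exact h2.trans (hw k j)
    have h3 : aeval (fun i => τ (rs U (seqC T) (z i))) (w j) = 0 := by
      have h4 : (τ.comp (rs U (seqC T))) (aeval z (w j)) =
          aeval (fun i => τ (rs U (seqC T) (z i))) (w j) := by
        rw [aeval_def, aeval_def, MvPolynomial.hom_eval₂]
        congr 1
        exact RingHom.ext_int _ _
      rw [← h4, h1, map_zero]
    have h5 : aeval (fun i => cls U F (vF (a i))) (w j) = 0 := by
      rw [← h3]
      congr 2
      funext i
      exact ha1 i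
    have h6 : cls U F (aeval (fun i => vF (a i)) (w j)) =
        aeval (fun i => cls U F (vF (a i))) (w j) := by
      rw [aeval_def, aeval_def, MvPolynomial.hom_eval₂]
      congr 1
    rw [← h6, cls_eq_zero] at h5
    filter_upwards [h5] with k hk
    rw [← hk]
    have h7 : Pi.evalRingHom F k (aeval (fun i => vF (a i)) (w j)) =
        aeval (fun i => vF (a i) k) (w j) := by
      rw [aeval_def, aeval_def, MvPolynomial.hom_eval₂]
      congr 1
    exact h7.symm
  refine ⟨N, hN, ?_⟩
  filter_upwards [h6, Filter.eventually_all.2 key] with k hk1 hk2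
  exact ⟨fun i => vF (a i) k, fun i => hk1 i (Finset.mem_univ i), hk2⟩

end Pool.Agent.Helper45M.UR
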