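import Pool.Agent.Helper45M.UR.Val
import Pool.Agent.Helper45M.UR.Lin
set_option autoImplicit false
set_option linter.unusedSectionVars false

/-!
# Sequences of polynomials; the dimension over the residue field
-/

open MvPolynomial Pool.Agent.Y129.TA Pool.Agent.Y129.TB

namespace Pool.Agent.Helper45M.UR

open Filter

variable {U : Ultrafilter ℕ} {S : VSeq} {σ : Type} [Fintype σ] [DecidableEq σ]

/-- The polynomial of degree `D` over the sequences with the given coefficients. -/
noncomputable def mkPoly {R : Type} [CommRing R] (D : ℕ) (c : (σ →₀ ℕ) → R) : MvPolynomial σ R :=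
  ∑ α ∈ (Finset.univ : Finset σ).finsuppAntidiag D, monomial α (c α)

theorem mem_antidiag {D : ℕ} {α : σ →₀ ℕ} :
    α ∈ (Finset.univ : Finset σ).finsuppAntidiag D ↔ α.degree = D := by
  rw [Finset.mem_finsuppAntidiag, Finsupp.degree_eq_sum]
  simp

theorem mkPoly_homogeneous {R : Type} [CommRing R] (D : ℕ) (c : (σ →₀ ℕ) → R) :
    (mkPoly D c).IsHomogeneous D := by
  refine IsHomogeneous.sum _ _ _ fun α hα => ?_
  exact isHomogeneous_monomial _ (mem_antidiag.1 hα)

theorem coeff_mkPoly {R : Type} [CommRing R] (D : ℕ) (c : (σ →₀ ℕ) → R) (α : σ →₀ ℕ) :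
    coeff α (mkPoly D c) = if α.degree = D then c α else 0 := by
  unfold mkPoly
  rw [coeff_sum]
  simp only [coeff_monomial]
  rw [Finset.sum_ite_eq']
  simp only [mem_antidiag]

theorem map_mkPoly {R R' : Type} [CommRing R] [CommRing R'] (f : R →+* R') (D : ℕ)
    (c : (σ →₀ ℕ) → R) : MvPolynomial.map f (mkPoly D c) = mkPoly D fun α => f (c α) := by
  unfold mkPoly
  rw [map_sum]
  simp only [map_monomial]

theorem eq_mkPoly {R : Type} [CommRing R] {D : ℕ} {f : MvPolynomial σ R} (hf : f.IsHomogeneous D) :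
    f = mkPoly D fun α => coeff α f := by
  ext α
  rw [coeff_mkPoly]
  split_ifs with h
  · rfl
  · exact hf.coeff_eq_zero h

/-- The value at the index `k`. -/
def at' (U : Ultrafilter ℕ) (S : VSeq) (k : ℕ) : Opr U S →+* S.A k :=
  (Pi.evalRingHom S.A k).comp (Opr U S).subtype

theorem at'_apply (k : ℕ) (x : Opr U S) : at' U S k x = x.1 k := rfl

/-- Evaluation of a polynomial over the sequences at a point, index by index. -/
theorem eval_at (f : MvPolynomial σ (Opr U S)) (x : σ → Opr U S) (k : ℕ) :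
    (eval x f).1 k = eval (fun i => (x i).1 k) (MvPolynomial.map (at' U S k) f) := by
  have h1 : at' U S k (eval x f) = eval₂ (at' U S k) (fun i => at' U S k (x i)) f := by
    have h2 := MvPolynomial.hom_eval₂ f (RingHom.id (Opr U S)) (at' U S k) x
    exact h2
  rw [eval_map]
  exact h1

theorem eval_rs (f : MvPolynomial σ (Opr U S)) (x : σ → Opr U S) :
    rs U S (eval x f) = eval (fun i => rs U S (x i)) (MvPolynomial.map (rs U S) f) := by
  rw [eval_map]
  exact MvPolynomial.hom_eval₂ f (RingHom.id (Opr U S)) (rs U S) x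

/-- The dimension over the residue field is at least the dimension at almost all indices. -/
theorem dimGE_kap {ι : Type} {P : ι → MvPolynomial σ (Opr U S)} {D : ι → ℕ}
    (hP : ∀ l, (P l).IsHomogeneous (D l)) {d : ℕ}
    (h : ∀ᶠ k in (U : Filter ℕ), DimGE {x : σ → S.A k | ∀ l,
      eval x (MvPolynomial.map (at' U S k) (P l)) = 0} d) :
    DimGE {x : σ → kap U S | ∀ l, eval x (MvPolynomial.map (rs U S) (P l)) = 0} d := by
  classical
  intro q hq
  choose Dq hDq hDq' using hq
  have hlift : ∀ j, ∃ q' : MvPolynomial σ (Opr U S), q'.IsHomogeneous (Dq j) ∧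
      MvPolynomial.map (rs U S) q' = q j := by
    intro j
    choose c hc using fun α => Ideal.Quotient.mk_surjective (I := mpr U S) (coeff α (q j))
    refine ⟨mkPoly (Dq j) c, mkPoly_homogeneous _ _, ?_⟩
    rw [map_mkPoly]
    conv_rhs => rw [eq_mkPoly (hDq' j)]
    congr 1
    funext α
    exact hc α
  choose q' hq'h hq' using hlift
  have hpt : ∀ k, ∃ x : σ → S.A k, (∀ i, S.v k (x i) ≤ 1) ∧
      (DimGE {x : σ → S.A k | ∀ l, eval x (MvPolynomial.map (at' U S k) (P l)) = 0} d →
        (∃ i, S.v k (x i) = 1) ∧ (∀ l, eval x (MvPolynomial.map (at' U S k) (P l)) = 0) ∧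
        ∀ j, eval x (MvPolynomial.map (at' U S k) (q' j)) = 0) := by
    intro k
    by_cases hk : DimGE {x : σ → S.A k | ∀ l, eval x (MvPolynomial.map (at' U S k) (P l)) = 0} d
    · obtain ⟨x, hx, hx0, hqx⟩ := hk (fun j => MvPolynomial.map (at' U S k) (q' j)) fun j =>
        ⟨Dq j, hDq j, (hq'h j).map _⟩
      obtain ⟨i₁, hi₁⟩ := Function.ne_iff.1 hx0
      obtain ⟨i₀, -, hi₀⟩ := Finset.exists_max_image Finset.univ (fun i => S.v k (x i))
        ⟨i₁, Finset.mem_univ _⟩
      have hpos : 0 < S.v k (x i₀) := ((S.v k).pos hi₁).trans_le (hi₀ i₁ (Finset.mem_univ _))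
      have hne : x i₀ ≠ 0 := fun h0 => by
        rw [h0, AbsoluteValue.map_zero] at hpos
        exact lt_irrefl _ hpos
      refine ⟨fun i => (x i₀)⁻¹ * x i, fun i => ?_, fun _ => ⟨⟨i₀, ?_⟩, fun l => ?_, fun j => ?_⟩⟩
      · rw [map_mul, map_inv₀, inv_mul_eq_div]
        exact div_le_one_of_le₀ (hi₀ i (Finset.mem_univ _)) hpos.le
      · change S.v k ((x i₀)⁻¹ * x i₀) = 1
        rw [inv_mul_cancel₀ hne, map_one]
      · have h1 := eval_smul_of_homogeneous ((hP l).map (at' U S k)) (x i₀)⁻¹ x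
        rw [h1, hx l, mul_zero]
      · have h1 := eval_smul_of_homogeneous ((hq'h j).map (at' U S k)) (x i₀)⁻¹ x
        rw [h1, hqx j, mul_zero]
    · refine ⟨fun _ => 0, fun i => ?_, fun h => absurd h hk⟩
      rw [map_zero]
      exact zero_le_one
  choose x hx1 hx using hpt
  let X : σ → Opr U S := fun i => ⟨fun k => x k i,
    mem_Opr_of_le_one (Eventually.of_forall fun k => hx1 k i)⟩
  refine ⟨fun i => rs U S (X i), fun l => ?_, fun h0 => ?_, fun j => ?_⟩
  · rw [← eval_rs]
    refine rs_eq_zero.2 (mem_mpr_of_zero ?_)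
    filter_upwards [h] with k hk
    rw [eval_at]
    exact (hx k hk).2.1 l
  · have h1 : ∀ᶠ k in (U : Filter ℕ), ∃ i, S.v k (x k i) = 1 := by
      filter_upwards [h] with k hk
      exact (hx k hk).1
    have h2 : ∃ i, ∀ᶠ k in (U : Filter ℕ), S.v k (x k i) = 1 := by
      by_contra hno
      push Not at hno
      have h3 : ∀ i, ∀ᶠ k in (U : Filter ℕ), S.v k (x k i) ≠ 1 := fun i => by
        simpa only [Filter.not_eventually, Ultrafilter.frequently_iff_eventually] using hno i
      have h4 : ∀ᶠ k in (U : Filter ℕ), ∀ i, S.v k (x k i) ≠ 1 := Filter.eventually_all.2 h3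
      obtain ⟨k, ⟨i, hk1⟩, hk2⟩ := (h1.and h4).exists
      exact hk2 i hk1
    obtain ⟨i, hi⟩ := h2
    have h3 : rs U S (X i) = 0 := congrFun h0 i
    obtain ⟨n, hn, h4⟩ := rs_eq_zero.1 h3
    obtain ⟨k, hk1, hk2⟩ := (hi.and h4).exists
    have h5 : (X i).1 k = x k i := rfl
    rw [h5, hk1, one_pow] at hk2
    linarith [S.η1 k]
  · have h1 : eval (fun i => rs U S (X i)) (q j) = rs U S (eval X (q' j)) := by
      rw [eval_rs, hq' j]
    rw [h1]
    refine rs_eq_zero.2 (mem_mpr_of_zero ?_)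
    filter_upwards [h] with k hk
    rw [eval_at]
    exact (hx k hk).2.2 j

end Pool.Agent.Helper45M.UR
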