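import Pool.Agent.Helper45M.UR.Poly
set_option autoImplicit false
set_option linter.unusedSectionVars false

/-!
# Lifting the residue field to the ultraproduct of the tilts
-/

open MvPolynomial WittVector Pool.Agent.Y129.TA Pool.Agent.Y129.TB

namespace Pool.Agent.Helper45M.UR

open Filter

/-- `exists_section` for a ring which is mapped to the field. -/
theorem exists_section' {F κ A : Type} [Field F] [IsAlgClosed F] [Field κ] [CommRing A] (p : ℕ)
    [Fact p.Prime] [CharP F p] [CharP κ p] (j : A →+* F) (ψ : A →+* κ)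
    (hker : ∀ a, j a = 0 → ψ a = 0)
    (hint : ∀ x : F, (∃ f : Polynomial F, f.Monic ∧ (∀ n, ∃ a, j a = f.coeff n) ∧ f.eval x = 0) →
      ∃ a, j a = x)
    (hψ : Function.Surjective ψ) (hu : ∀ a, ψ a ≠ 0 → ∃ b, j b = (j a)⁻¹) :
    ∃ τ : κ →+* F, ∀ z, ∃ a, j a = τ z ∧ ψ a = z := by
  have hsurj : Function.Surjective j.rangeRestrict := j.rangeRestrict_surjective
  let ψ' : j.range →+* κ := j.rangeRestrict.liftOfSurjective hsurj ⟨ψ, fun a ha => hker a (by
    have h1 := congrArg Subtype.val ((RingHom.mem_ker).1 ha)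
    exact h1)⟩
  have hψ' : ∀ a, ψ' (j.rangeRestrict a) = ψ a := fun a =>
    RingHom.liftOfRightInverse_comp_apply j.rangeRestrict _ _ _ a
  obtain ⟨τ, hτ⟩ := DB.exists_section p j.range (fun x ⟨f, hf, hc, hx⟩ => by
      obtain ⟨a, ha⟩ := hint x ⟨f, hf, fun n => (hc n), hx⟩
      exact ⟨a, ha⟩) ψ' (fun z => by
      obtain ⟨a, ha⟩ := hψ z
      exact ⟨j.rangeRestrict a, by rw [hψ', ha]⟩) (fun x hx => by
      obtain ⟨a, rfl⟩ := hsurj x
      rw [hψ'] at hx
      obtain ⟨b, hb⟩ := hu a hx
      exact ⟨b, hb⟩)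
  refine ⟨j.range.subtype.comp τ, fun z => ?_⟩
  obtain ⟨a, ha⟩ := hsurj (τ z)
  refine ⟨a, ?_, ?_⟩
  · have h1 := congrArg Subtype.val ha
    exact h1
  · rw [← hψ', ha, hτ]

variable {p : ℕ} [hp : Fact p.Prime] {C F : ℕ → Type} [∀ k, Field (C k)] [∀ k, Field (F k)]
  [∀ k, CharP (F k) p] [∀ k, IsAlgClosed (C k)] [∀ k, IsAlgClosed (F k)]

/-- The sequence of the fields `C`. -/
def seqC (T : ∀ k, Tilting p (C k) (F k)) : VSeq where
  A := C
  fld := fun _ => inferInstance
  v := fun k => (T k).absK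
  ultra := fun k => (T k).ultraK
  η := fun k => (T k).absK p
  η0 := fun k => (T k).absK.pos (T k).p_ne
  η1 := fun k => (T k).p_lt

/-- The sequence of the fields `F`. -/
def seqF (T : ∀ k, Tilting p (C k) (F k)) : VSeq where
  A := F
  fld := fun _ => inferInstance
  v := fun k => (T k).absF
  ultra := fun k => (T k).ultraF
  η := fun k => (T k).absK p
  η0 := fun k => (T k).absK.pos (T k).p_ne
  η1 := fun k => (T k).p_lt

/-- The underlying sequence. -/
def vC {U : Ultrafilter ℕ} {T : ∀ k, Tilting p (C k) (F k)} (x : Opr U (seqC T)) : ∀ k, C k := x.1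

/-- The underlying sequence. -/
def vF {U : Ultrafilter ℕ} {T : ∀ k, Tilting p (C k) (F k)} (x : Opr U (seqF T)) : ∀ k, F k := x.1

/-- The map `x ↦ x♯` is additive modulo `p`, for arbitrary elements. -/
theorem sharp_add_near {C F : Type} [Field C] [Field F] [CharP F p] [IsAlgClosed F]
    (T : Tilting p C F) (x y : F) :
    T.absK (T.sharp (x + y) - (T.sharp x + T.sharp y)) ≤ T.absK p * max (T.absF x) (T.absF y) := by
  wlog h : T.absF x ≤ T.absF y generalizing x y with H
  · have h1 := H y x (le_of_not_ge h)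
    rwa [add_comm y x, add_comm (T.sharp y), max_comm] at h1
  rw [max_eq_right h]
  by_cases hy : y = 0
  · have hx : x = 0 := by
      rw [hy, map_zero] at h
      exact T.absF.eq_zero.1 (le_antisymm h (T.absF.nonneg _))
    rw [hx, hy, add_zero, T.toTiltPair.sharp_zero, add_zero, sub_zero, map_zero, map_zero, mul_zero]
  · have hy0 : 0 < T.absF y := T.absF.pos hy
    have hx1 : T.absF (x / y) ≤ 1 := by
      rw [map_div₀]
      exact div_le_one_of_le₀ h hy0.le
    let a : T.O := ⟨x / y, hx1⟩
    have h1 := Tilting.abs_sub_le T (teichmuller p a + teichmuller p 1)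
    have h2 : (teichmuller p a + teichmuller p 1).coeff 0 = a + 1 := by
      have h5 := map_add (WittVector.constantCoeff (p := p) (R := T.O))
        (teichmuller p a) (teichmuller p 1)
      have h6 : ∀ w : WittVector p T.O, WittVector.constantCoeff (p := p) w = w.coeff 0 :=
        fun w => rfl
      rw [h6, h6, h6, teichmuller_coeff_zero, teichmuller_coeff_zero] at h5
      exact h5
    rw [h2, map_add, T.θ_teich, T.θ_teich] at h1
    have h3 : T.sharp (x + y) - (T.sharp x + T.sharp y) =
        -((T.sharp (x / y) + T.sharp 1 - T.sharp (x / y + 1)) * T.sharp y) := by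
      have h4 : T.sharp (x / y) * T.sharp y = T.sharp x := by
        rw [← map_mul, div_mul_cancel₀ _ hy]
      have h5 : T.sharp (x / y + 1) * T.sharp y = T.sharp (x + y) := by
        rw [← map_mul, add_mul, div_mul_cancel₀ _ hy, one_mul]
      rw [sub_mul, add_mul, h4, h5, map_one, one_mul]
      ring
    rw [h3, AbsoluteValue.map_neg, map_mul, T.abs_sharp]
    exact mul_le_mul_of_nonneg_right h1 hy0.le

variable {U : Ultrafilter ℕ} {T : ∀ k, Tilting p (C k) (F k)}

theorem sharp_mem (x : Opr U (seqF T)) : (fun k => (T k).sharp (x.1 k)) ∈ Opr U (seqC T) := by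
  intro n
  filter_upwards [x.2 n] with k hk
  have h1 : (seqC T).v k ((T k).sharp (x.1 k)) = (seqF T).v k (x.1 k) := (T k).abs_sharp _
  rw [h1]
  exact hk

/-- The reduction of `x♯`. -/
noncomputable def psiT (U : Ultrafilter ℕ) (T : ∀ k, Tilting p (C k) (F k)) :
    Opr U (seqF T) →+* kap U (seqC T) where
  toFun x := rs U (seqC T) ⟨fun k => (T k).sharp (x.1 k), sharp_mem x⟩
  map_one' := by
    rw [← map_one (rs U (seqC T))]
    congr 1
    apply Subtype.ext
    funext k
    exact map_one (T k).sharp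
  map_mul' x y := by
    rw [← map_mul]
    congr 1
    apply Subtype.ext
    funext k
    exact map_mul (T k).sharp _ _
  map_zero' := by
    refine rs_eq_zero.2 (mem_mpr_of_zero (Eventually.of_forall fun k => ?_))
    exact (T k).toTiltPair.sharp_zero
  map_add' x y := by
    rw [← map_add, ← sub_eq_zero, ← map_sub]
    refine rs_eq_zero.2 ⟨2, two_pos, ?_⟩
    filter_upwards [x.2 2, y.2 2] with k hx hy
    have h1 := sharp_add_near (T k) (x.1 k) (y.1 k)
    have h2 : (seqC T).v k ((T k).sharp (x.1 k + y.1 k) - ((T k).sharp (x.1 k) + (T k).sharp (y.1 k))) ≤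
      (T k).absK p * max ((T k).absF (x.1 k)) ((T k).absF (y.1 k)) := h1
    have h3 : max ((T k).absF (x.1 k)) ((T k).absF (y.1 k)) ^ 2 * (T k).absK p ≤ 1 := by
      rcases le_total ((T k).absF (x.1 k)) ((T k).absF (y.1 k)) with h | h
      · rw [max_eq_right h]
        exact hy
      · rw [max_eq_left h]
        exact hx
    have h4 : ((T k).absK p * max ((T k).absF (x.1 k)) ((T k).absF (y.1 k))) ^ 2 ≤ (T k).absK p := by
      have h5 : ((T k).absK p * max ((T k).absF (x.1 k)) ((T k).absF (y.1 k))) ^ 2 =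
          (max ((T k).absF (x.1 k)) ((T k).absF (y.1 k)) ^ 2 * (T k).absK p) * (T k).absK p := by ring
      rw [h5]
      exact mul_le_of_le_one_left ((T k).absK.nonneg _) h3
    exact (pow_le_pow_left₀ (((seqC T).v k).nonneg _) h2 2).trans h4

theorem kap_charP (U : Ultrafilter ℕ) (T : ∀ k, Tilting p (C k) (F k)) :
    CharP (kap U (seqC T)) p := by
  rw [CharP.charP_iff_prime_eq_zero hp.out]
  have h1 : ((p : ℕ) : kap U (seqC T)) = rs U (seqC T) ((p : ℕ) : Opr U (seqC T)) := by
    rw [map_natCast]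
  rw [h1, rs_eq_zero]
  refine ⟨1, one_pos, Eventually.of_forall fun k => ?_⟩
  have h2 : ((p : ℕ) : Opr U (seqC T)).1 k = ((p : ℕ) : C k) := by
    have h3 := map_natCast (at' U (seqC T) k) p
    exact h3
  rw [h2, pow_one]
  exact le_rfl

/-- The residue field can be lifted to the ultraproduct of the tilts. -/
theorem exists_tau (U : Ultrafilter ℕ) (T : ∀ k, Tilting p (C k) (F k)) :
    ∃ τ : kap U (seqC T) →+* UP U F, ∀ z, ∃ a : Opr U (seqF T),
      cls U F (vF a) = τ z ∧ psiT U T a = z := by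
  classical
  have hch : CharP (kap U (seqC T)) p := kap_charP U T
  have hch2 : CharP (UP U F) p := up_charP
  have hcl : IsAlgClosed (UP U F) := up_closed
  refine exists_section' p ((cls U F).comp (Opr U (seqF T)).subtype) (psiT U T) (fun a ha => ?_)
    (fun x ⟨f, hf, hc, hx⟩ => ?_) (fun z => ?_) fun a ha => ?_
  · have h1 : ∀ᶠ k in (U : Filter ℕ), a.1 k = 0 := cls_eq_zero.1 ha
    refine rs_eq_zero.2 (mem_mpr_of_zero ?_)
    filter_upwards [h1] with k hk
    change (T k).sharp (a.1 k) = 0
    rw [hk]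
    exact (T k).toTiltPair.sharp_zero
  · obtain ⟨x, rfl⟩ := Ideal.Quotient.mk_surjective x
    choose c hc using hc
    have hdeg : 0 < f.natDegree := by
      rcases Nat.eq_zero_or_pos f.natDegree with h0 | h0
      · rw [(Polynomial.Monic.natDegree_eq_zero hf).1 h0, Polynomial.eval_one] at hx
        exact absurd hx one_ne_zero
      · exact h0
    have h1 := eval_monic hf (fun j => (c j).1) (fun j => hc j) x
    rw [h1, cls_eq_zero] at hx
    exact ⟨⟨x, mem_Opr_of_root (S := seqF T) hdeg c hx⟩, rfl⟩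
  · obtain ⟨z, rfl⟩ := Ideal.Quotient.mk_surjective z
    choose x hx using fun k => (T k).surj (z.1 k)
    have hmem : (fun k => x k) ∈ Opr U (seqF T) := by
      intro n
      filter_upwards [z.2 n] with k hk
      have h1 : (seqF T).v k (x k) = (seqC T).v k (z.1 k) := by
        change (T k).absF (x k) = (T k).absK (z.1 k)
        rw [← (T k).abs_sharp, hx]
      rw [h1]
      exact hk
    refine ⟨⟨x, hmem⟩, ?_⟩
    change rs U (seqC T) ⟨fun k => (T k).sharp (x k), _⟩ = _
    congr 1
    apply Subtype.ext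
    funext k
    exact hx k
  · have h1 : (⟨fun k => (T k).sharp (a.1 k), sharp_mem a⟩ : Opr U (seqC T)) ∉
        mpr U (seqC T) := fun h => ha (rs_eq_zero.2 h)
    have h2 : a ∉ mpr U (seqF T) := by
      rintro ⟨n, hn, h⟩
      refine h1 ⟨n, hn, ?_⟩
      filter_upwards [h] with k hk
      have h3 : (seqC T).v k ((T k).sharp (a.1 k)) = (seqF T).v k (a.1 k) := (T k).abs_sharp _
      change (seqC T).v k ((T k).sharp (a.1 k)) ^ n ≤ _
      rw [h3]
      exact hk
    obtain ⟨b, hb⟩ := exists_inv h2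
    refine ⟨b, ?_⟩
    let a' : ∀ k, F k := a.1
    let b' : ∀ k, F k := b.1
    have h3 : cls U F (b' * a') = 1 := by
      rw [← map_one (cls U F), cls_eq]
      exact hb
    rw [map_mul] at h3
    exact eq_inv_of_mul_eq_one_left h3

end Pool.Agent.Helper45M.UR
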