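import Pool.Agent.Helper45M.UR.Final
set_option autoImplicit false
set_option linter.unusedSectionVars false

/-!
# Q1 up to a uniform radius; towers of bounded complexity
-/

open MvPolynomial Pool.Agent.Y129.TA Pool.Agent.Y129.TB

namespace Pool.Agent.Helper45M.UR

variable {p : ℕ} [hp : Fact p.Prime] {C F : Type} [Field C] [Field F] [CharP F p] [IsAlgClosed C]
  [IsAlgClosed F]

/-- Forms of degrees at most `B` with coefficients of absolute value at most `1`. -/
structure IsSystem (T : TiltPair p C F) {n r : ℕ} (P : Fin r → MvPolynomial (Fin (n + 1)) C)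
    (D : Fin r → ℕ) (B : ℕ) : Prop where
  pos : ∀ l, 0 < D l
  le : ∀ l, D l ≤ B
  hom : ∀ l, (P l).IsHomogeneous (D l)
  int : ∀ l α, T.absK (coeff α (P l)) ≤ 1

/-- The forms `P' l` over `F` have the degrees of the `P l` and coefficients `c'` with
`|c - c'♯| ^ N ≤ |p|`, and they define a closed set of dimension at least `d`. -/
structure IsTilt (T : TiltPair p C F) {n r : ℕ} (P : Fin r → MvPolynomial (Fin (n + 1)) C)
    (D : Fin r → ℕ) (N d : ℕ) (P' : Fin r → MvPolynomial (Fin (n + 1)) F) : Prop where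
  hom : ∀ l, (P' l).IsHomogeneous (D l)
  near : ∀ l α, T.absK (coeff α (P l) - T.sharp (coeff α (P' l))) ^ N ≤ T.absK p
  dim : DimGE {t : Fin (n + 1) → F | ∀ l, eval t (P' l) = 0} d

theorem le_root {x η : ℝ} (hη0 : 0 < η) {N : ℕ} (hN : 0 < N) (h : x ^ N ≤ η) :
    x ≤ η ^ (1 / (N : ℝ)) := by
  have hN0 : (N : ℝ) ≠ 0 := by exact_mod_cast hN.ne'
  have h1 : (η ^ (1 / (N : ℝ))) ^ N = η := by
    rw [← Real.rpow_natCast, ← Real.rpow_mul hη0.le, one_div, inv_mul_cancel₀ hN0, Real.rpow_one]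
  by_contra hlt
  push Not at hlt
  have h2 : (η ^ (1 / (N : ℝ))) ^ N < x ^ N :=
    pow_lt_pow_left₀ hlt (Real.rpow_nonneg hη0.le _) hN.ne'
  rw [h1] at h2
  exact absurd h (not_le.2 h2)

theorem root_lt_one {η : ℝ} (hη0 : 0 < η) (hη1 : η < 1) {N : ℕ} (hN : 0 < N) :
    η ^ (1 / (N : ℝ)) < 1 := by
  refine Real.rpow_lt_one hη0.le hη1 ?_
  have : (0 : ℝ) < N := by exact_mod_cast hN
  positivity

theorem le_root_self {η : ℝ} (hη0 : 0 < η) (hη1 : η < 1) {N : ℕ} (hN : 0 < N) :
    η ≤ η ^ (1 / (N : ℝ)) :=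
  le_root hη0 hN (pow_le_of_le_one hη0.le hη1.le hN.ne')

/-- Close forms give approximations in the sense of Q1, up to the radius. -/
theorem inTube_of_near (T : Tilting p C F) {n : ℕ} {f : MvPolynomial (Fin (n + 1)) C}
    {f' : MvPolynomial (Fin (n + 1)) F} {D : ℕ} (hD : 0 < D) (hf : f.IsHomogeneous D)
    (hf1 : ∀ α, T.absK (coeff α f) ≤ 1) (hf' : f'.IsHomogeneous D) {ρ : ℝ} (hpρ : T.absK p ≤ ρ)
    (hρ1 : ρ < 1) (hnear : ∀ α, T.absK (coeff α f - T.sharp (coeff α f')) ≤ ρ)
    {y : Fin (n + 1) → F} (hy : eval y f' = 0) : T.toTiltPair.InTube f D ρ y := by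
  classical
  intro B hB
  have hρ0 : 0 ≤ ρ := (T.absK.nonneg _).trans hpρ
  obtain ⟨i₀, -, hi₀⟩ := Finset.exists_max_image Finset.univ (fun i => T.absF (y i))
    ⟨(0 : Fin (n + 1)), Finset.mem_univ _⟩
  by_cases h0 : y i₀ = 0
  · have hy0 : ∀ i, y i = 0 := fun i => by
      have h1 := hi₀ i (Finset.mem_univ i)
      rw [h0, map_zero] at h1
      exact T.absF.eq_zero.1 (le_antisymm h1 (T.absF.nonneg _))
    have h1 : (fun i => T.sharp (y i)) = fun i => (0 : C) * (0 : C) := by
      funext i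
      rw [hy0 i, T.toTiltPair.sharp_zero, zero_mul]
    rw [h1, eval_smul_of_homogeneous hf (0 : C) fun _ => (0 : C), zero_pow hD.ne', zero_mul, map_zero]
    have hB0 : 0 ≤ B := (T.absF.nonneg _).trans (hB 0)
    exact mul_nonneg hρ0 (pow_nonneg hB0 _)
  · have hpos : 0 < T.absF (y i₀) := T.absF.pos h0
    let g : MvPolynomial (Fin (n + 1)) (DB.OK T.toTiltPair C) :=
      mkPoly D fun α => ⟨coeff α f, hf1 α⟩
    have hg : ∀ z : Fin (n + 1) → C, aeval z g = eval z f := by
      intro z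
      have h1 : aeval z g = eval z (MvPolynomial.map (DB.OK T.toTiltPair C).subtype g) := by
        rw [eval_map]
        rfl
      have h2 : MvPolynomial.map (DB.OK T.toTiltPair C).subtype g = f := by
        rw [map_mkPoly]
        exact (eq_mkPoly hf).symm
      rw [h1, h2]
    have hgc : ∀ α, T.absK (algebraMap C C (coeff α g : DB.OK T.toTiltPair C) -
        T.sharp (algebraMap F F (coeff α f'))) ≤ ρ := by
      intro α
      have h1 : ((coeff α g : DB.OK T.toTiltPair C) : C) = coeff α f := by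
        have h2 : coeff α g = if α.degree = D then (⟨coeff α f, hf1 α⟩ : DB.OK T.toTiltPair C)
          else 0 := coeff_mkPoly _ _ _
        rw [h2]
        split_ifs with h
        · rfl
        · rw [hf.coeff_eq_zero h]
          rfl
      change T.absK (((coeff α g : DB.OK T.toTiltPair C) : C) - T.sharp (coeff α f')) ≤ ρ
      rw [h1]
      exact hnear α
    have h1 := DB.near_coeff (K := C) (E := F) T hpρ hρ1 g f' hgc (fun i => (y i₀)⁻¹ * y i)
      (fun i => by
        rw [map_mul, map_inv₀, inv_mul_eq_div]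
        exact div_le_one_of_le₀ (hi₀ i (Finset.mem_univ _)) hpos.le) (by
        rw [aeval_eq_eval, eval_smul_of_homogeneous hf' (y i₀)⁻¹ y, hy, mul_zero])
    rw [hg] at h1
    have h2 : (fun i => T.sharp (y i)) =
        fun i => T.sharp (y i₀) * T.sharp ((y i₀)⁻¹ * y i) := by
      funext i
      rw [← map_mul, ← mul_assoc, mul_inv_cancel₀ h0, one_mul]
    rw [h2, eval_smul_of_homogeneous hf (T.sharp (y i₀)) fun i => T.sharp ((y i₀)⁻¹ * y i), map_mul,
      map_pow, T.abs_sharp, mul_comm]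
    exact mul_le_mul h1 (pow_le_pow_left₀ hpos.le (hB i₀) _) (pow_nonneg hpos.le _) hρ0

/-- The uniform approximation theorem. -/
theorem uniform_main (p : ℕ) [Fact p.Prime] (B d : ℕ) : ∃ N : ℕ, 0 < N ∧ ∀ (C F : Type) [Field C]
    [Field F] [CharP F p] [IsAlgClosed C] [IsAlgClosed F] (T : Tilting p C F) (n r : ℕ)
    (D : Fin r → ℕ) (P : Fin r → MvPolynomial (Fin (n + 1)) C), n ≤ B → r ≤ B →
    IsSystem T.toTiltPair P D B → DimGE {x : Fin (n + 1) → C | ∀ l, eval x (P l) = 0} d →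
    (∃ P', IsTilt T.toTiltPair P D N d P') ∧
    ∃ Y : Set (Fin (n + 1) → F), IsClosedCone Y ∧ DimGE Y d ∧ DimLE Y d ∧
      ∀ y ∈ Y, ∀ l, T.toTiltPair.InTube (P l) (D l) (T.absK p ^ (1 / (N : ℝ))) y := by
  obtain ⟨N, hN, h⟩ := uniform_bounded (p := p) B d
  refine ⟨N, hN, fun C F _ _ _ _ _ T n r D P hn hr hP hd => ?_⟩
  obtain ⟨P', h1, h2, h3⟩ := h ⟨C, F, inferInstance, inferInstance, inferInstance, inferInstance,
    inferInstance, T⟩ n r D P hn hr hP.pos hP.le hP.hom hP.int hd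
  refine ⟨⟨P', ⟨h1, h2, h3⟩⟩, ?_⟩
  obtain ⟨Y, hY1, hY2, hY3, hY4⟩ := exists_sub (fun l => ⟨D l, hP.pos l, h1 l⟩) h3
  have hpp : 0 < T.absK p := T.absK.pos T.p_ne
  exact ⟨Y, hY1, hY2, hY3, fun y hy l => inTube_of_near T (hP.pos l) (hP.hom l) (hP.int l) (h1 l)
    (le_root_self hpp T.p_lt hN) (root_lt_one hpp T.p_lt hN)
    (fun α => le_root hpp hN (h2 l α)) (hY4 hy l)⟩

open DB in
/-- Q1 for the bottoms of inseparable towers of bounded complexity. -/
theorem tower_bounded (T : Tilting p C F) {B d : ℕ} {n r e : ℕ → ℕ} {β : ℝ} (hβ : β < 1)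
    {P : ∀ m, Fin (r m) → MvPolynomial (Fin (n m + 1)) (OT T.toTiltPair C)}
    {Φ : ∀ m, Fin (n m + 1) → MvPolynomial (Fin (n (m + 1) + 1)) (OT T.toTiltPair C)}
    (hT : IsTower T.toTiltPair P Φ e β) (hn : ∀ m, n m ≤ B) (hr : ∀ m, r m ≤ B)
    (hD : ∀ m l, (P m l).totalDegree ≤ B) (hd : ∀ m, DimGE (zeros C (P m)) d) :
    HasQ1 T.toTiltPair C F (P 0) d := by
  classical
  intro hle
  have hpp : 0 < T.absK p := T.absK.pos T.p_ne
  obtain ⟨N, hN, h⟩ := uniform_main p (B + 1) d
  refine approximable_of_within T (baseField_self T) (hT.model 0).form (fun ε hε =>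
    within_of_tower T (baseField_self T) hβ (root_lt_one hpp T.p_lt hN) hT.model hT.maps
      (fun m => ?_) hε) hle
  let φ : OT T.toTiltPair C →+* C := (OK T.toTiltPair C).subtype
  let D : Fin (r m) → ℕ := fun l => if P m l = 0 then 1 else (P m l).totalDegree
  have hDf : ∀ l, 0 < D l ∧ D l ≤ B + 1 ∧ (P m l).IsHomogeneous (D l) := by
    intro l
    by_cases h0 : P m l = 0
    · simp only [D, if_pos h0]
      exact ⟨one_pos, by omega, by rw [h0]; exact isHomogeneous_zero _ _ _⟩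
    · simp only [D, if_neg h0]
      obtain ⟨D', hD', h1⟩ := (hT.model m).form l
      have h2 : (P m l).totalDegree = D' := h1.totalDegree h0
      exact ⟨by omega, (hD m l).trans (Nat.le_succ B), by rw [h2]; exact h1⟩
  have hev : ∀ (x : Fin (n m + 1) → C) l,
      eval x (MvPolynomial.map φ (P m l)) = aeval x (P m l) := by
    intro x l
    rw [eval_map, aeval_def]
    rfl
  obtain ⟨⟨P', hP'⟩, -⟩ := h C F T (n m) (r m) D (fun l => MvPolynomial.map φ (P m l))
    ((hn m).trans (Nat.le_succ B)) ((hr m).trans (Nat.le_succ B))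
    ⟨fun l => (hDf l).1, fun l => (hDf l).2.1, fun l => (hDf l).2.2.map _, fun l α => by
      rw [coeff_map]
      exact av_le_one (T := T.toTiltPair) (K := C) (coeff α (P m l))⟩ (by
      have h1 : {x : Fin (n m + 1) → C | ∀ l, eval x (MvPolynomial.map φ (P m l)) = 0} =
          zeros C (P m) := by
        ext x
        simp only [hev]
        rfl
      rw [h1]
      exact hd m)
  refine within_of_coeff (K := C) (E := F) T (le_root_self hpp T.p_lt hN)
    (root_lt_one hpp T.p_lt hN) (P m) P' (fun l => ⟨D l, (hDf l).1, hP'.hom l⟩)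
    (fun l α => ?_) ?_
  · have h1 := le_root hpp hN (hP'.near l α)
    rw [coeff_map] at h1
    exact h1
  · have h1 := hP'.dim
    simp only [aeval_eq_eval]
    exact h1

end Pool.Agent.Helper45M.UR
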