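import Mathlib
set_option autoImplicit false

/-!
# Ultraproducts of fields
-/

namespace Pool.Agent.Helper45M.UR

open Filter

variable (U : Ultrafilter ℕ) (A : ℕ → Type) [∀ k, Field (A k)]

/-- The sequences which are `0` almost everywhere. -/
def nul : Ideal (∀ k, A k) where
  carrier := {x | ∀ᶠ k in (U : Filter ℕ), x k = 0}
  add_mem' {a b} ha hb := by
    filter_upwards [ha, hb] with k h1 h2
    rw [Pi.add_apply, h1, h2, add_zero]
  zero_mem' := Eventually.of_forall fun k => rfl
  smul_mem' c x hx := by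
    filter_upwards [hx] with k h1
    rw [smul_eq_mul, Pi.mul_apply, h1, mul_zero]

variable {U A}

theorem mem_nul {x : ∀ k, A k} : x ∈ nul U A ↔ ∀ᶠ k in (U : Filter ℕ), x k = 0 := Iff.rfl

instance : (nul U A).IsMaximal := by
  classical
  rw [Ideal.isMaximal_iff]
  refine ⟨fun h => ?_, fun J x _ hx hxJ => ?_⟩
  · rw [mem_nul] at h
    obtain ⟨k, hk⟩ := h.exists
    exact one_ne_zero hk
  · rw [mem_nul, Ultrafilter.eventually_not.symm] at hx
    let y : ∀ k, A k := fun k => (x k)⁻¹
    have h1 : (1 : ∀ k, A k) = y * x + (1 - y * x) := by ring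
    rw [h1]
    refine J.add_mem (J.mul_mem_left _ hxJ) (‹nul U A ≤ J› ?_)
    rw [mem_nul]
    filter_upwards [hx] with k hk
    rw [Pi.sub_apply, Pi.mul_apply, Pi.one_apply, inv_mul_cancel₀ hk, sub_self]

variable (U A) in
/-- The ultraproduct. -/
abbrev UP : Type := (∀ k, A k) ⧸ nul U A

noncomputable instance : Field (UP U A) := Ideal.Quotient.field _

variable (U A) in
/-- The class of a sequence. -/
noncomputable abbrev cls : (∀ k, A k) →+* UP U A := Ideal.Quotient.mk (nul U A)

theorem cls_eq {x y : ∀ k, A k} : cls U A x = cls U A y ↔ ∀ᶠ k in (U : Filter ℕ), x k = y k := by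
  rw [Ideal.Quotient.eq, mem_nul]
  simp only [Pi.sub_apply, sub_eq_zero]

theorem cls_eq_zero {x : ∀ k, A k} : cls U A x = 0 ↔ ∀ᶠ k in (U : Filter ℕ), x k = 0 := by
  rw [Ideal.Quotient.eq_zero_iff_mem, mem_nul]

theorem up_charP {p : ℕ} [hp : Fact p.Prime] [∀ k, CharP (A k) p] : CharP (UP U A) p := by
  rw [CharP.charP_iff_prime_eq_zero hp.out]
  have h1 : ((p : ℕ) : UP U A) = cls U A ((p : ℕ) : ∀ k, A k) := by rw [map_natCast]
  rw [h1, cls_eq_zero]
  exact Eventually.of_forall fun k => CharP.cast_eq_zero (A k) p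

/-- Monic polynomials over the ultraproduct. -/
theorem eval_monic {f : Polynomial (UP U A)} (hf : f.Monic) (c : ℕ → ∀ k, A k)
    (hc : ∀ j, cls U A (c j) = f.coeff j) (x : ∀ k, A k) :
    f.eval (cls U A x) = cls U A (fun k => x k ^ f.natDegree +
      ∑ j ∈ Finset.range f.natDegree, c j k * x k ^ j) := by
  have h1 : (fun k => x k ^ f.natDegree + ∑ j ∈ Finset.range f.natDegree, c j k * x k ^ j) =
      x ^ f.natDegree + ∑ j ∈ Finset.range f.natDegree, c j * x ^ j := by
    funext k
    simp only [Pi.add_apply, Pi.pow_apply, Finset.sum_apply, Pi.mul_apply]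
  rw [h1, Polynomial.eval_eq_sum_range, Finset.sum_range_succ, hf.coeff_natDegree, one_mul,
    map_add, map_pow, map_sum, add_comm]
  congr 1
  refine Finset.sum_congr rfl fun j _ => ?_
  rw [map_mul, map_pow, hc]

instance up_closed [∀ k, IsAlgClosed (A k)] : IsAlgClosed (UP U A) := by
  refine IsAlgClosed.of_exists_root _ fun f hf hirr => ?_
  choose c hc using fun j => Ideal.Quotient.mk_surjective (I := nul U A) (f.coeff j)
  have hdeg : 0 < f.natDegree := Polynomial.natDegree_pos_iff_degree_pos.2
    (Polynomial.degree_pos_of_irreducible hirr)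
  have hr : ∀ k, ∃ r : A k, r ^ f.natDegree +
      ∑ j ∈ Finset.range f.natDegree, c j k * r ^ j = 0 := by
    intro k
    let g : Polynomial (A k) := Polynomial.X ^ f.natDegree +
      ∑ j ∈ Finset.range f.natDegree, Polynomial.C (c j k) * Polynomial.X ^ j
    have hlt : (∑ j ∈ Finset.range f.natDegree, Polynomial.C (c j k) * Polynomial.X ^ j).degree <
        (f.natDegree : WithBot ℕ) := by
      refine (Polynomial.degree_sum_le _ _).trans_lt ?_
      rw [Finset.sup_lt_iff (by exact_mod_cast WithBot.bot_lt_coe f.natDegree)]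
      intro j hj
      refine (Polynomial.degree_C_mul_X_pow_le _ _).trans_lt ?_
      exact_mod_cast Finset.mem_range.1 hj
    have hg : g.degree = f.natDegree := by
      change (Polynomial.X ^ f.natDegree + _).degree = _
      rw [Polynomial.degree_add_eq_left_of_degree_lt]
      · exact Polynomial.degree_X_pow _
      · rwa [Polynomial.degree_X_pow]
    obtain ⟨r, hr⟩ := IsAlgClosed.exists_root g (by
      rw [hg]
      exact_mod_cast hdeg.ne')
    refine ⟨r, ?_⟩
    have h1 : g.eval r = 0 := hr
    simpa only [g, Polynomial.eval_add, Polynomial.eval_pow, Polynomial.eval_X,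
      Polynomial.eval_finset_sum, Polynomial.eval_mul, Polynomial.eval_C] using h1
  choose r hr using hr
  refine ⟨cls U A r, ?_⟩
  rw [eval_monic hf c hc, cls_eq_zero]
  exact Eventually.of_forall hr

end Pool.Agent.Helper45M.UR
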