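import Pool.Agent.Helper45M.UR.Ultra
set_option autoImplicit false

/-!
# The coarse valuation ring of an ultraproduct of valued fields
-/

namespace Pool.Agent.Helper45M.UR

open Filter

/-- A sequence of nonarchimedean fields with a scale `η`. -/
structure VSeq where
  A : ℕ → Type
  fld : ∀ k, Field (A k)
  v : ∀ k, AbsoluteValue (A k) ℝ
  ultra : ∀ k x y, v k (x + y) ≤ max (v k x) (v k y)
  η : ℕ → ℝ
  η0 : ∀ k, 0 < η k
  η1 : ∀ k, η k < 1

instance (S : VSeq) (k : ℕ) : Field (S.A k) := S.fld k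

variable (U : Ultrafilter ℕ) (S : VSeq)

/-- The sequences `x` with `|x_k| ^ n ≤ 1 / η_k` almost everywhere, for all `n`. -/
def Opr : Subring (∀ k, S.A k) where
  carrier := {x | ∀ n : ℕ, ∀ᶠ k in (U : Filter ℕ), S.v k (x k) ^ n * S.η k ≤ 1}
  mul_mem' {a b} ha hb := by
    intro n
    filter_upwards [ha (2 * n), hb (2 * n)] with k h1 h2
    rw [Pi.mul_apply, map_mul]
    have h3 : (S.v k (a k) * S.v k (b k)) ^ n * S.η k = (S.v k (a k) ^ n * S.v k (b k) ^ n) * S.η k := by
      rw [mul_pow]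
    have h4 : ((S.v k (a k) ^ n * S.v k (b k) ^ n) * S.η k) ^ 2 ≤ 1 := by
      have h5 : ((S.v k (a k) ^ n * S.v k (b k) ^ n) * S.η k) ^ 2 =
          (S.v k (a k) ^ (2 * n) * S.η k) * (S.v k (b k) ^ (2 * n) * S.η k) := by ring
      rw [h5]
      exact mul_le_one₀ h1 (mul_nonneg (pow_nonneg ((S.v k).nonneg _) _) (S.η0 k).le) h2
    rw [h3]
    refine (pow_le_one_iff_of_nonneg ?_ two_ne_zero).1 h4
    exact mul_nonneg (mul_nonneg (pow_nonneg ((S.v k).nonneg _) _)
      (pow_nonneg ((S.v k).nonneg _) _)) (S.η0 k).le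
  one_mem' := by
    intro n
    refine Eventually.of_forall fun k => ?_
    rw [Pi.one_apply, map_one, one_pow, one_mul]
    exact (S.η1 k).le
  add_mem' {a b} ha hb := by
    intro n
    filter_upwards [ha n, hb n] with k h1 h2
    rw [Pi.add_apply]
    have h3 : S.v k (a k + b k) ^ n ≤ max (S.v k (a k)) (S.v k (b k)) ^ n :=
      pow_le_pow_left₀ ((S.v k).nonneg _) (S.ultra k _ _) n
    refine (mul_le_mul_of_nonneg_right h3 (S.η0 k).le).trans ?_
    rcases le_total (S.v k (a k)) (S.v k (b k)) with h | h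
    · rwa [max_eq_right h]
    · rwa [max_eq_left h]
  zero_mem' := by
    intro n
    refine Eventually.of_forall fun k => ?_
    rw [Pi.zero_apply, map_zero]
    refine mul_le_one₀ ?_ (S.η0 k).le (S.η1 k).le
    exact pow_le_one₀ le_rfl zero_le_one
  neg_mem' {a} ha := by
    intro n
    filter_upwards [ha n] with k h1
    rwa [Pi.neg_apply, AbsoluteValue.map_neg]

variable {U S}

theorem mem_Opr {x : ∀ k, S.A k} :
    x ∈ Opr U S ↔ ∀ n : ℕ, ∀ᶠ k in (U : Filter ℕ), S.v k (x k) ^ n * S.η k ≤ 1 := Iff.rfl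

theorem mem_Opr_of_le_one {x : ∀ k, S.A k} (h : ∀ᶠ k in (U : Filter ℕ), S.v k (x k) ≤ 1) :
    x ∈ Opr U S := by
  intro n
  filter_upwards [h] with k h1
  exact mul_le_one₀ (pow_le_one₀ ((S.v k).nonneg _) h1) (S.η0 k).le (S.η1 k).le

variable (U S) in
/-- The ideal of the `x` with `|x_k| ^ n ≤ η_k` almost everywhere for some `n`. -/
def mpr : Ideal (Opr U S) where
  carrier := {x | ∃ n : ℕ, 0 < n ∧ ∀ᶠ k in (U : Filter ℕ), S.v k (x.1 k) ^ n ≤ S.η k}
  add_mem' {a b} ha hb := by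
    obtain ⟨n, hn, ha⟩ := ha
    obtain ⟨m, hm, hb⟩ := hb
    refine ⟨n + m, by omega, ?_⟩
    filter_upwards [ha, hb] with k h1 h2
    have hle : ∀ (x : ℝ) (i j : ℕ), 0 ≤ x → x ^ i ≤ S.η k → x ^ (i + j) ≤ S.η k := by
      intro x i j hx h
      have hx1 : x ≤ 1 := by
        by_contra hlt
        push Not at hlt
        have h3 : 1 ≤ x ^ i := one_le_pow₀ hlt.le
        linarith [S.η1 k]
      rw [pow_add]
      exact (mul_le_of_le_one_right (pow_nonneg hx _) (pow_le_one₀ hx hx1)).trans h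
    have h3 : (a + b).1 k = a.1 k + b.1 k := rfl
    rw [h3]
    have h4 : S.v k (a.1 k + b.1 k) ^ (n + m) ≤ max (S.v k (a.1 k)) (S.v k (b.1 k)) ^ (n + m) :=
      pow_le_pow_left₀ ((S.v k).nonneg _) (S.ultra k _ _) _
    refine h4.trans ?_
    rcases le_total (S.v k (a.1 k)) (S.v k (b.1 k)) with h | h
    · rw [max_eq_right h, add_comm]
      exact hle _ _ _ ((S.v k).nonneg _) h2
    · rw [max_eq_left h]
      exact hle _ _ _ ((S.v k).nonneg _) h1
  zero_mem' := by
    refine ⟨1, one_pos, Eventually.of_forall fun k => ?_⟩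
    have h3 : (0 : Opr U S).1 k = 0 := rfl
    rw [h3, map_zero, pow_one]
    exact (S.η0 k).le
  smul_mem' c x hx := by
    obtain ⟨n, hn, hx⟩ := hx
    refine ⟨2 * n, by omega, ?_⟩
    filter_upwards [c.2 (2 * n), hx] with k h1 h2
    have h3 : (c • x).1 k = c.1 k * x.1 k := rfl
    rw [h3, map_mul, mul_pow]
    have h4 : S.v k (x.1 k) ^ (2 * n) ≤ S.η k * S.η k := by
      have h5 : S.v k (x.1 k) ^ (2 * n) = S.v k (x.1 k) ^ n * S.v k (x.1 k) ^ n := by ring
      rw [h5]
      exact mul_le_mul h2 h2 (pow_nonneg ((S.v k).nonneg _) _) (S.η0 k).le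
    calc S.v k (c.1 k) ^ (2 * n) * S.v k (x.1 k) ^ (2 * n)
        ≤ S.v k (c.1 k) ^ (2 * n) * (S.η k * S.η k) :=
          mul_le_mul_of_nonneg_left h4 (pow_nonneg ((S.v k).nonneg _) _)
      _ = (S.v k (c.1 k) ^ (2 * n) * S.η k) * S.η k := by ring
      _ ≤ 1 * S.η k := mul_le_mul_of_nonneg_right h1 (S.η0 k).le
      _ = S.η k := one_mul _

theorem mem_mpr {x : Opr U S} :
    x ∈ mpr U S ↔ ∃ n : ℕ, 0 < n ∧ ∀ᶠ k in (U : Filter ℕ), S.v k (x.1 k) ^ n ≤ S.η k := Iff.rfl

theorem mem_mpr_of_zero {x : Opr U S} (h : ∀ᶠ k in (U : Filter ℕ), x.1 k = 0) : x ∈ mpr U S := by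
  refine ⟨1, one_pos, ?_⟩
  filter_upwards [h] with k h1
  rw [h1, map_zero, pow_one]
  exact (S.η0 k).le

/-- Elements outside the ideal have an inverse almost everywhere. -/
theorem exists_inv {x : Opr U S} (hx : x ∉ mpr U S) : ∃ y : Opr U S,
    ∀ᶠ k in (U : Filter ℕ), y.1 k * x.1 k = 1 := by
  rw [mem_mpr] at hx
  push Not at hx
  have hx' : ∀ n : ℕ, 0 < n → ∀ᶠ k in (U : Filter ℕ), S.η k < S.v k (x.1 k) ^ n := by
    intro n hn
    have h1 := hx n hn
    simpa only [not_le, Filter.not_eventually, Ultrafilter.frequently_iff_eventually] using h1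
  refine ⟨⟨fun k => (x.1 k)⁻¹, fun n => ?_⟩, ?_⟩
  · rcases Nat.eq_zero_or_pos n with rfl | hn
    · refine Eventually.of_forall fun k => ?_
      rw [pow_zero, one_mul]
      exact (S.η1 k).le
    · filter_upwards [hx' n hn] with k h1
      rw [map_inv₀, inv_pow]
      have h2 : 0 < S.v k (x.1 k) ^ n := (S.η0 k).trans h1
      rw [inv_mul_le_iff₀ h2, mul_one]
      exact h1.le
  · filter_upwards [hx' 1 one_pos] with k h1
    have h2 : x.1 k ≠ 0 := by
      intro h0
      rw [h0, map_zero, pow_one] at h1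
      linarith [S.η0 k]
    exact inv_mul_cancel₀ h2

theorem one_not_mem_mpr : (1 : Opr U S) ∉ mpr U S := by
  rintro ⟨n, hn, h⟩
  obtain ⟨k, hk⟩ := h.exists
  have h1 : (1 : Opr U S).1 k = 1 := rfl
  rw [h1, map_one, one_pow] at hk
  linarith [S.η1 k]

instance : (mpr U S).IsMaximal := by
  rw [Ideal.isMaximal_iff]
  refine ⟨one_not_mem_mpr, fun J x hle hx hxJ => ?_⟩
  obtain ⟨y, hy⟩ := exists_inv hx
  have h1 : (1 : Opr U S) = y * x + (1 - y * x) := by ring
  rw [h1]
  refine J.add_mem (J.mul_mem_left _ hxJ) (hle (mem_mpr_of_zero ?_))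
  filter_upwards [hy] with k hk
  change 1 - y.1 k * x.1 k = 0
  rw [hk, sub_self]

variable (U S) in
/-- The residue field. -/
abbrev kap : Type := Opr U S ⧸ mpr U S

noncomputable instance : Field (kap U S) := Ideal.Quotient.field _

variable (U S) in
/-- The residue class. -/
noncomputable abbrev rs : Opr U S →+* kap U S := Ideal.Quotient.mk (mpr U S)

theorem rs_eq_zero {x : Opr U S} : rs U S x = 0 ↔ x ∈ mpr U S := Ideal.Quotient.eq_zero_iff_mem

/-- The roots of monic polynomials are bounded by the coefficients. -/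
theorem root_bound {L : Type} [Field L] {a : AbsoluteValue L ℝ}
    (ha : ∀ x y, a (x + y) ≤ max (a x) (a y)) {N : ℕ} (hN : 0 < N) (c : ℕ → L) {x : L}
    (hx : x ^ N + ∑ j ∈ Finset.range N, c j * x ^ j = 0) {B : ℝ} (hB : 1 ≤ B)
    (hc : ∀ j ∈ Finset.range N, a (c j) ≤ B) : a x ≤ B := by
  classical
  by_contra hlt
  push Not at hlt
  have h1x : 1 < a x := hB.trans_lt hlt
  have hsum : ∀ (s : Finset ℕ) (g : ℕ → L) (M : ℝ), 0 ≤ M → (∀ i ∈ s, a (g i) ≤ M) →
      a (∑ i ∈ s, g i) ≤ M := by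
    intro s g M hM h
    induction s using Finset.induction_on with
    | empty => rwa [Finset.sum_empty, AbsoluteValue.map_zero]
    | insert i s hi ih =>
      rw [Finset.sum_insert hi]
      exact (ha _ _).trans (max_le (h i (Finset.mem_insert_self i s))
        (ih fun j hj => h j (Finset.mem_insert_of_mem hj)))
  have h1 : x ^ N = -∑ j ∈ Finset.range N, c j * x ^ j := eq_neg_of_add_eq_zero_left hx
  have h2 : a (x ^ N) ≤ B * a x ^ (N - 1) := by
    rw [h1, AbsoluteValue.map_neg]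
    refine hsum _ _ _ (mul_nonneg (zero_le_one.trans hB) (pow_nonneg (a.nonneg x) _)) fun i hi => ?_
    rw [map_mul, map_pow]
    refine mul_le_mul (hc i hi) ?_ (pow_nonneg (a.nonneg x) _) (zero_le_one.trans hB)
    exact pow_le_pow_right₀ h1x.le (by have := Finset.mem_range.1 hi; omega)
  rw [map_pow] at h2
  have h3 : a x ^ N = a x * a x ^ (N - 1) := by
    rw [← pow_succ']
    congr 1
    omega
  rw [h3] at h2
  have h4 : 0 < a x ^ (N - 1) := pow_pos (zero_lt_one.trans h1x) _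
  exact absurd (le_of_mul_le_mul_right h2 h4) (not_le.2 hlt)

/-- The coarse valuation ring is integrally closed. -/
theorem mem_Opr_of_root {N : ℕ} (hN : 0 < N) (c : ℕ → Opr U S) {x : ∀ k, S.A k}
    (hx : ∀ᶠ k in (U : Filter ℕ), x k ^ N + ∑ j ∈ Finset.range N, (c j).1 k * x k ^ j = 0) :
    x ∈ Opr U S := by
  classical
  intro n
  have h1 : ∀ᶠ k in (U : Filter ℕ), ∀ j ∈ Finset.range N, S.v k ((c j).1 k) ^ n * S.η k ≤ 1 := by
    rw [Filter.eventually_all_finset]
    exact fun j _ => (c j).2 n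
  filter_upwards [hx, h1] with k h2 h3
  obtain ⟨j₀, hj₀, hmax⟩ := Finset.exists_max_image (Finset.range N)
    (fun j => S.v k ((c j).1 k)) ⟨0, Finset.mem_range.2 hN⟩
  have h4 := root_bound (S.ultra k) hN (fun j => (c j).1 k) h2
    (le_max_left 1 (S.v k ((c j₀).1 k))) (fun j hj => (hmax j hj).trans (le_max_right _ _))
  have h5 : S.v k (x k) ^ n ≤ max 1 (S.v k ((c j₀).1 k)) ^ n :=
    pow_le_pow_left₀ ((S.v k).nonneg _) h4 n
  refine (mul_le_mul_of_nonneg_right h5 (S.η0 k).le).trans ?_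
  rcases le_total 1 (S.v k ((c j₀).1 k)) with h | h
  · rw [max_eq_right h]
    exact h3 j₀ hj₀
  · rw [max_eq_left h, one_pow, one_mul]
    exact (S.η1 k).le

instance kap_closed [∀ k, IsAlgClosed (S.A k)] : IsAlgClosed (kap U S) := by
  refine IsAlgClosed.of_exists_root _ fun f hf hirr => ?_
  choose c hc using fun j => Ideal.Quotient.mk_surjective (I := mpr U S) (f.coeff j)
  have hdeg : 0 < f.natDegree := Polynomial.natDegree_pos_iff_degree_pos.2
    (Polynomial.degree_pos_of_irreducible hirr)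
  have hr : ∀ k, ∃ r : S.A k, r ^ f.natDegree +
      ∑ j ∈ Finset.range f.natDegree, (c j).1 k * r ^ j = 0 := by
    intro k
    let g : Polynomial (S.A k) := Polynomial.X ^ f.natDegree +
      ∑ j ∈ Finset.range f.natDegree, Polynomial.C ((c j).1 k) * Polynomial.X ^ j
    have hlt : (∑ j ∈ Finset.range f.natDegree,
        Polynomial.C ((c j).1 k) * Polynomial.X ^ j).degree < (f.natDegree : WithBot ℕ) := by
      refine (Polynomial.degree_sum_le _ _).trans_lt ?_
      rw [Finset.sup_lt_iff (by exact_mod_cast WithBot.bot_lt_coe f.natDegree)]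
      intro j hj
      refine (Polynomial.degree_C_mul_X_pow_le _ _).trans_lt ?_
      exact_mod_cast Finset.mem_range.1 hj
    have hg : g.degree = f.natDegree := by
      change (Polynomial.X ^ f.natDegree + _).degree = _
      rw [Polynomial.degree_add_eq_left_of_degree_lt]
      · exact Polynomial.degree_X_pow _
      · rwa [Polynomial.degree_X_pow]
    obtain ⟨r, hr⟩ := IsAlgClosed.exists_root g (by
      rw [hg]
      exact_mod_cast hdeg.ne')
    refine ⟨r, ?_⟩
    have h1 : g.eval r = 0 := hr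
    simpa only [g, Polynomial.eval_add, Polynomial.eval_pow, Polynomial.eval_X,
      Polynomial.eval_finsetSum, Polynomial.eval_mul, Polynomial.eval_C] using h1
  choose r hr using hr
  let R : Opr U S := ⟨r, mem_Opr_of_root hdeg c (Eventually.of_forall hr)⟩
  refine ⟨rs U S R, ?_⟩
  have h1 : f.eval (rs U S R) = rs U S (R ^ f.natDegree +
      ∑ j ∈ Finset.range f.natDegree, c j * R ^ j) := by
    rw [Polynomial.eval_eq_sum_range, Finset.sum_range_succ, hf.coeff_natDegree, one_mul,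
      map_add, map_pow, map_sum, add_comm]
    congr 1
    refine Finset.sum_congr rfl fun j _ => ?_
    rw [map_mul, map_pow, hc]
  rw [h1]
  refine rs_eq_zero.2 (mem_mpr_of_zero (Eventually.of_forall fun k => ?_))
  have h2 : ∀ (x y : Opr U S), (x + y).1 k = x.1 k + y.1 k := fun _ _ => rfl
  have h3 : ∀ (s : Finset ℕ) (g : ℕ → Opr U S), (∑ j ∈ s, g j).1 k = ∑ j ∈ s, (g j).1 k := by
    intro s g
    have h4 := map_sum ((Pi.evalRingHom S.A k).comp (Opr U S).subtype) g s
    exact h4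
  rw [h2, h3]
  exact hr k

end Pool.Agent.Helper45M.UR
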